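import Mathlib

/-! Dyadic boxes and Haar functions on the grid, orthogonality of counting functions. -/

namespace Pool.Agent.Lib.MP_a3f376_nt

open Finset

/-- Haar sign at scale `a`: minus one on left halves, plus one on right halves of the
intervals of length `2^(a+1)`. -/
noncomputable def chi (a t : ℕ) : ℝ := if (t / 2 ^ a) % 2 = 1 then 1 else -1

theorem chi_mul_self (a t : ℕ) : chi a t * chi a t = 1 := by
  unfold chi; split_ifs <;> norm_num

theorem abs_chi (a t : ℕ) : |chi a t| = 1 := by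
  unfold chi; split_ifs <;> norm_num

theorem chi_congr {a t t' : ℕ} (h : t / 2 ^ a = t' / 2 ^ a) : chi a t = chi a t' := by
  unfold chi; rw [h]

theorem div_pow_congr {a a' t t' : ℕ} (h : t / 2 ^ a = t' / 2 ^ a) (ha : a ≤ a') :
    t / 2 ^ a' = t' / 2 ^ a' := by
  obtain ⟨c, rfl⟩ := Nat.exists_eq_add_of_le ha
  rw [pow_add, ← Nat.div_div_eq_div_mul, ← Nat.div_div_eq_div_mul, h]

theorem chi_add (a x ρ : ℕ) : chi a (2 ^ (a + 1) * x + ρ) = chi a ρ := by
  unfold chi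
  have h : (2 ^ (a + 1) * x + ρ) / 2 ^ a = 2 * x + ρ / 2 ^ a := by
    rw [pow_succ, mul_assoc, Nat.mul_add_div (by positivity)]
  rw [h]
  congr 1
  rw [Nat.mul_add_mod]

theorem chi_left {a ρ : ℕ} (h : ρ < 2 ^ a) : chi a ρ = -1 := by
  unfold chi
  rw [Nat.div_eq_of_lt h]
  norm_num

theorem chi_right {a ρ : ℕ} (h : ρ < 2 ^ a) : chi a (2 ^ a + ρ) = 1 := by
  unfold chi
  have : (2 ^ a + ρ) / 2 ^ a = 1 := by
    rw [Nat.add_div_left _ (by positivity), Nat.div_eq_of_lt h]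
  rw [this]
  norm_num

theorem sum_split (p q : ℕ) (F : ℕ → ℝ) :
    ∑ t ∈ range (q * p), F t = ∑ x ∈ range p, ∑ ρ ∈ range q, F (q * x + ρ) := by
  induction p with
  | zero => simp
  | succ p ih =>
    rw [Nat.mul_succ, Finset.sum_range_add, Finset.sum_range_succ, ih]

theorem sum_halves (a : ℕ) (F : ℕ → ℝ) :
    ∑ ρ ∈ range (2 ^ (a + 1)), F ρ * chi a ρ
      = ∑ ρ ∈ range (2 ^ a), (F (2 ^ a + ρ) - F ρ) := by
  have h2 : 2 ^ (a + 1) = 2 ^ a + 2 ^ a := by ring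
  rw [h2, Finset.sum_range_add, ← Finset.sum_add_distrib]
  refine Finset.sum_congr rfl fun ρ hρ => ?_
  rw [chi_left (Finset.mem_range.1 hρ), chi_right (Finset.mem_range.1 hρ)]
  ring

theorem sum_chi_block (a x : ℕ) :
    ∑ ρ ∈ range (2 ^ (a + 1)), chi a (2 ^ (a + 1) * x + ρ) = 0 := by
  have := sum_halves a (fun _ => 1)
  simp only [one_mul, sub_self, Finset.sum_const_zero] at this
  simp only [chi_add]
  exact this

theorem sum_lin_block (a x : ℕ) :
    ∑ ρ ∈ range (2 ^ (a + 1)), ((2 ^ (a + 1) * x + ρ : ℕ) : ℝ) * chi a (2 ^ (a + 1) * x + ρ)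
      = (2 ^ a) ^ 2 := by
  simp only [chi_add]
  rw [sum_halves a (fun ρ => ((2 ^ (a + 1) * x + ρ : ℕ) : ℝ))]
  have : ∀ ρ ∈ range (2 ^ a), (((2 ^ (a + 1) * x + (2 ^ a + ρ) : ℕ) : ℝ)
      - ((2 ^ (a + 1) * x + ρ : ℕ) : ℝ)) = 2 ^ a := by
    intro ρ _
    push_cast
    ring
  rw [Finset.sum_congr rfl this, Finset.sum_const, Finset.card_range]
  simp only [nsmul_eq_mul]
  push_cast
  ring

/-- An indicator `[m < t]` is orthogonal to the Haar function of a block not containing `m`. -/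
theorem sum_ind_block {a x m : ℕ} (h : m / 2 ^ (a + 1) ≠ x) :
    ∑ ρ ∈ range (2 ^ (a + 1)), (if m < 2 ^ (a + 1) * x + ρ then (1 : ℝ) else 0)
      * chi a (2 ^ (a + 1) * x + ρ) = 0 := by
  rcases lt_or_gt_of_ne h with h1 | h1
  · have hm : m < 2 ^ (a + 1) * x := by
      have := (Nat.div_lt_iff_lt_mul (by positivity)).1 h1
      rwa [mul_comm] at this
    have : ∀ ρ ∈ range (2 ^ (a + 1)), (if m < 2 ^ (a + 1) * x + ρ then (1 : ℝ) else 0)
        * chi a (2 ^ (a + 1) * x + ρ) = chi a (2 ^ (a + 1) * x + ρ) := by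
      intro ρ _
      rw [if_pos (by omega), one_mul]
    rw [Finset.sum_congr rfl this]
    exact sum_chi_block a x
  · have hm : 2 ^ (a + 1) * (x + 1) ≤ m := by
      have := (Nat.le_div_iff_mul_le (k := 2 ^ (a + 1)) (by positivity)).1 (Nat.succ_le_of_lt h1)
      rw [mul_comm] at this
      exact this
    refine Finset.sum_eq_zero fun ρ hρ => ?_
    have hr := Finset.mem_range.1 hρ
    rw [if_neg (by rw [Nat.mul_succ] at hm; omega), zero_mul]

/-- The local discrepancy function of a finite family of grid points. -/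
noncomputable def disc {ι : Type*} (P : Finset ι) (u v : ι → ℕ) (lam : ℝ) (t j : ℕ) : ℝ :=
  (∑ p ∈ P, (if u p < t then (1 : ℝ) else 0) * (if v p < j then (1 : ℝ) else 0))
    - lam * t * j

/-- Dependence only on the block indices. -/
def Blk (a b : ℕ) (F : ℕ → ℕ → ℝ) : Prop :=
  ∀ t t' j j', t / 2 ^ a = t' / 2 ^ a → j / 2 ^ b = j' / 2 ^ b → F t j = F t' j'

theorem box_sum {ι : Type*} (P : Finset ι) (u v : ι → ℕ) (lam : ℝ) (a b X Y : ℕ)
    (F : ℕ → ℕ → ℝ) (hF : Blk (a + 1) (b + 1) F)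
    (hv : ∀ t j, (∃ p ∈ P, u p / 2 ^ (a + 1) = t / 2 ^ (a + 1) ∧
      v p / 2 ^ (b + 1) = j / 2 ^ (b + 1)) → F t j = 0) :
    ∑ t ∈ range (2 ^ (a + 1) * X), ∑ j ∈ range (2 ^ (b + 1) * Y),
        disc P u v lam t j * (F t j * chi a t * chi b j)
      = -(lam * (2 ^ a) ^ 2 * (2 ^ b) ^ 2 *
        ∑ x ∈ range X, ∑ y ∈ range Y, F (2 ^ (a + 1) * x) (2 ^ (b + 1) * y)) := by
  rw [sum_split]
  have key : ∀ x ∈ range X, ∀ y ∈ range Y,
      ∑ ρ ∈ range (2 ^ (a + 1)), ∑ σ ∈ range (2 ^ (b + 1)),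
        disc P u v lam (2 ^ (a + 1) * x + ρ) (2 ^ (b + 1) * y + σ) *
          (F (2 ^ (a + 1) * x + ρ) (2 ^ (b + 1) * y + σ) * chi a (2 ^ (a + 1) * x + ρ)
            * chi b (2 ^ (b + 1) * y + σ))
        = -(lam * (2 ^ a) ^ 2 * (2 ^ b) ^ 2) * F (2 ^ (a + 1) * x) (2 ^ (b + 1) * y) := by
    intro x _ y _
    have hw : ∀ ρ ∈ range (2 ^ (a + 1)), ∀ σ ∈ range (2 ^ (b + 1)),
        F (2 ^ (a + 1) * x + ρ) (2 ^ (b + 1) * y + σ) = F (2 ^ (a + 1) * x) (2 ^ (b + 1) * y) := by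
      intro ρ hρ σ hσ
      apply hF
      · rw [Nat.mul_add_div (by positivity), Nat.div_eq_of_lt (Finset.mem_range.1 hρ), add_zero,
          Nat.mul_div_cancel_left _ (by positivity)]
      · rw [Nat.mul_add_div (by positivity), Nat.div_eq_of_lt (Finset.mem_range.1 hσ), add_zero,
          Nat.mul_div_cancel_left _ (by positivity)]
    set w := F (2 ^ (a + 1) * x) (2 ^ (b + 1) * y) with hwdef
    have step1 : ∑ ρ ∈ range (2 ^ (a + 1)), ∑ σ ∈ range (2 ^ (b + 1)),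
        disc P u v lam (2 ^ (a + 1) * x + ρ) (2 ^ (b + 1) * y + σ) *
          (F (2 ^ (a + 1) * x + ρ) (2 ^ (b + 1) * y + σ) * chi a (2 ^ (a + 1) * x + ρ)
            * chi b (2 ^ (b + 1) * y + σ))
        = ∑ p ∈ P, w * ((∑ ρ ∈ range (2 ^ (a + 1)),
              (if u p < 2 ^ (a + 1) * x + ρ then (1 : ℝ) else 0) * chi a (2 ^ (a + 1) * x + ρ)) *
            (∑ σ ∈ range (2 ^ (b + 1)),
              (if v p < 2 ^ (b + 1) * y + σ then (1 : ℝ) else 0) * chi b (2 ^ (b + 1) * y + σ)))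
          - lam * w * ((∑ ρ ∈ range (2 ^ (a + 1)),
              ((2 ^ (a + 1) * x + ρ : ℕ) : ℝ) * chi a (2 ^ (a + 1) * x + ρ)) *
            (∑ σ ∈ range (2 ^ (b + 1)),
              ((2 ^ (b + 1) * y + σ : ℕ) : ℝ) * chi b (2 ^ (b + 1) * y + σ))) := by
      have e1 : ∀ ρ ∈ range (2 ^ (a + 1)), ∀ σ ∈ range (2 ^ (b + 1)),
          disc P u v lam (2 ^ (a + 1) * x + ρ) (2 ^ (b + 1) * y + σ) *
          (F (2 ^ (a + 1) * x + ρ) (2 ^ (b + 1) * y + σ) * chi a (2 ^ (a + 1) * x + ρ)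
            * chi b (2 ^ (b + 1) * y + σ))
          = (∑ p ∈ P, w * (((if u p < 2 ^ (a + 1) * x + ρ then (1 : ℝ) else 0) *
              chi a (2 ^ (a + 1) * x + ρ)) * ((if v p < 2 ^ (b + 1) * y + σ then (1 : ℝ) else 0)
              * chi b (2 ^ (b + 1) * y + σ))))
            - lam * w * ((((2 ^ (a + 1) * x + ρ : ℕ) : ℝ) * chi a (2 ^ (a + 1) * x + ρ)) *
              (((2 ^ (b + 1) * y + σ : ℕ) : ℝ) * chi b (2 ^ (b + 1) * y + σ))) := by
        intro ρ hρ σ hσ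
        rw [hw ρ hρ σ hσ]
        unfold disc
        rw [sub_mul, Finset.sum_mul]
        congr 1
        · refine Finset.sum_congr rfl fun p _ => ?_
          ring
        · ring
      rw [Finset.sum_congr rfl fun ρ hρ => Finset.sum_congr rfl fun σ hσ => e1 ρ hρ σ hσ]
      simp only [Finset.sum_sub_distrib]
      congr 1
      · have e3 : ∀ ρ ∈ range (2 ^ (a + 1)), ∑ σ ∈ range (2 ^ (b + 1)), ∑ p ∈ P,
            w * (((if u p < 2 ^ (a + 1) * x + ρ then (1 : ℝ) else 0) *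
              chi a (2 ^ (a + 1) * x + ρ)) * ((if v p < 2 ^ (b + 1) * y + σ then (1 : ℝ) else 0)
              * chi b (2 ^ (b + 1) * y + σ)))
            = ∑ p ∈ P, ∑ σ ∈ range (2 ^ (b + 1)),
            w * (((if u p < 2 ^ (a + 1) * x + ρ then (1 : ℝ) else 0) *
              chi a (2 ^ (a + 1) * x + ρ)) * ((if v p < 2 ^ (b + 1) * y + σ then (1 : ℝ) else 0)
              * chi b (2 ^ (b + 1) * y + σ))) := fun ρ _ => Finset.sum_comm
        refine (Finset.sum_congr rfl e3).trans ?_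
        refine Finset.sum_comm.trans ?_
        refine Finset.sum_congr rfl fun p _ => ?_
        rw [Finset.sum_mul_sum, Finset.mul_sum]
        refine Finset.sum_congr rfl fun ρ _ => ?_
        rw [Finset.mul_sum]
      · rw [Finset.sum_mul_sum, Finset.mul_sum]
        refine Finset.sum_congr rfl fun ρ _ => ?_
        rw [Finset.mul_sum]
    rw [step1, sum_lin_block, sum_lin_block]
    have hzero : ∀ p ∈ P, w * ((∑ ρ ∈ range (2 ^ (a + 1)),
              (if u p < 2 ^ (a + 1) * x + ρ then (1 : ℝ) else 0) * chi a (2 ^ (a + 1) * x + ρ)) *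
            (∑ σ ∈ range (2 ^ (b + 1)),
              (if v p < 2 ^ (b + 1) * y + σ then (1 : ℝ) else 0) * chi b (2 ^ (b + 1) * y + σ)))
            = 0 := by
      intro p hp
      by_cases h1 : u p / 2 ^ (a + 1) = x
      · by_cases h2 : v p / 2 ^ (b + 1) = y
        · have : w = 0 := by
            rw [hwdef]
            apply hv
            refine ⟨p, hp, ?_, ?_⟩
            · rw [h1, Nat.mul_div_cancel_left _ (by positivity)]
            · rw [h2, Nat.mul_div_cancel_left _ (by positivity)]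
          rw [this, zero_mul]
        · rw [sum_ind_block h2, mul_zero, mul_zero]
      · rw [sum_ind_block h1, zero_mul, mul_zero]
    rw [Finset.sum_eq_zero hzero]
    ring
  have e2 : ∀ x ∈ range X,
      ∑ ρ ∈ range (2 ^ (a + 1)), ∑ j ∈ range (2 ^ (b + 1) * Y),
        disc P u v lam (2 ^ (a + 1) * x + ρ) j *
          (F (2 ^ (a + 1) * x + ρ) j * chi a (2 ^ (a + 1) * x + ρ) * chi b j)
      = ∑ y ∈ range Y, -(lam * (2 ^ a) ^ 2 * (2 ^ b) ^ 2) *
          F (2 ^ (a + 1) * x) (2 ^ (b + 1) * y) := by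
    intro x hx
    have : ∀ ρ ∈ range (2 ^ (a + 1)), ∑ j ∈ range (2 ^ (b + 1) * Y),
        disc P u v lam (2 ^ (a + 1) * x + ρ) j *
          (F (2 ^ (a + 1) * x + ρ) j * chi a (2 ^ (a + 1) * x + ρ) * chi b j)
        = ∑ y ∈ range Y, ∑ σ ∈ range (2 ^ (b + 1)),
          disc P u v lam (2 ^ (a + 1) * x + ρ) (2 ^ (b + 1) * y + σ) *
          (F (2 ^ (a + 1) * x + ρ) (2 ^ (b + 1) * y + σ) * chi a (2 ^ (a + 1) * x + ρ)
            * chi b (2 ^ (b + 1) * y + σ)) := by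
      intro ρ _
      rw [sum_split]
    rw [Finset.sum_congr rfl this, Finset.sum_comm]
    exact Finset.sum_congr rfl fun y hy => key x hx y hy
  refine (Finset.sum_congr rfl e2).trans ?_
  generalize lam * (2 ^ a) ^ 2 * (2 ^ b) ^ 2 = C
  have h : -(C * ∑ x ∈ range X, ∑ y ∈ range Y, F (2 ^ (a + 1) * x) (2 ^ (b + 1) * y))
      = (-C) * ∑ x ∈ range X, ∑ y ∈ range Y, F (2 ^ (a + 1) * x) (2 ^ (b + 1) * y) := by ring
  rw [h, Finset.mul_sum]
  refine Finset.sum_congr rfl fun x _ => ?_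
  rw [Finset.mul_sum]

end Pool.Agent.Lib.MP_a3f376_nt
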