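import Pool.Agent.Lib.MP_a3f376_nt.Vdc

/-! Reduction of box counts to the grid discrepancy functions. -/

namespace Pool.Agent.Lib.MP_a3f376_nt

open Finset

/-- integers below `2 ^ K` of exact dyadic valuation `k` -/
def PK (K k : ℕ) : Finset ℕ := (range (2 ^ K)).filter (fun m => m % 2 ^ (k + 1) = 2 ^ k)

theorem card_PK (K k : ℕ) (h : k < K) : (PK K k).card ≤ 2 ^ (K - k - 1) := by
  have h1 : (PK K k).card ≤ (range (2 ^ (K - k - 1))).card := by
    refine Finset.card_le_card_of_injOn (fun m => m / 2 ^ (k + 1)) ?_ ?_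
    · intro m hm
      have hm' : m ∈ PK K k := hm
      rw [PK, Finset.mem_filter, Finset.mem_range] at hm'
      have h2 : m / 2 ^ (k + 1) < 2 ^ (K - k - 1) := by
        rw [Nat.div_lt_iff_lt_mul (by positivity), ← pow_add]
        have : K - k - 1 + (k + 1) = K := by omega
        rw [this]
        exact hm'.1
      exact Finset.mem_coe.2 (Finset.mem_range.2 h2)
    · intro m hm m' hm' heq
      have h2 : m ∈ PK K k := hm
      have h3 : m' ∈ PK K k := hm'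
      rw [PK, Finset.mem_filter, Finset.mem_range] at h2 h3
      have heq' : m / 2 ^ (k + 1) = m' / 2 ^ (k + 1) := heq
      rw [← Nat.div_add_mod m (2 ^ (k + 1)), ← Nat.div_add_mod m' (2 ^ (k + 1)), h2.2, h3.2, heq']
  rwa [Finset.card_range] at h1

/-- grid cell of the point `-(m α)` -/
noncomputable def cm (α : ℝ) (K m : ℕ) : ℕ := ⌊(2 : ℝ) ^ K * Int.fract (-((m : ℝ) * α))⌋₊

theorem cm_lt_iff (α : ℝ) (K m j : ℕ) :
    cm α K m < j ↔ Int.fract (-((m : ℝ) * α)) < (j : ℝ) / 2 ^ K := by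
  unfold cm
  rw [Nat.floor_lt (by have := Int.fract_nonneg (-((m : ℝ) * α)); positivity),
    lt_div_iff₀ (by positivity), mul_comm]

/-- the discrepancy function of valuation `k` -/
noncomputable def Dk (α : ℝ) (K k t j : ℕ) : ℝ :=
  disc (PK K k) id (cm α K) (1 / 2 ^ (K + k + 1)) t j

theorem exists_tj (α : ℝ) (s : ℕ) (hs : 3 ≤ s) :
    ∃ t < 2 ^ (2 * s ^ 2), ∃ j < 2 ^ (2 * s ^ 2),
      (s : ℝ) ^ 3 / 512 ≤ ∑ k ∈ range (s ^ 2), |Dk α (2 * s ^ 2) k t j| := by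
  set n := s ^ 2 with hn
  set K := 2 * n with hK
  have hn9 : 9 ≤ n := by rw [hn]; nlinarith
  have h1 : ∀ k ∈ range n, (s : ℝ) * 2 ^ (2 * K) / 512 ≤
      ∑ t ∈ range (2 ^ K), ∑ j ∈ range (2 ^ K), |Dk α K k t j| := by
    intro k hk
    have hk' := Finset.mem_range.1 hk
    refine halasz (PK K k) id (cm α K) (1 / 2 ^ (K + k + 1)) s K k (K - 3) hs (by omega)
      (by omega) (by omega) ?_ ?_
    · have : K + k + 1 = (k + (K - 3)) + 4 := by omega
      rw [this, pow_add]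
      field_simp
      norm_num
    · have h2 := card_PK K k (by omega)
      calc 4 * (PK K k).card * 2 ^ (k + (K - 3) + 2)
          ≤ 4 * 2 ^ (K - k - 1) * 2 ^ (k + (K - 3) + 2) := by gcongr
        _ = 2 ^ (2 * K) := by
          rw [show (4 : ℕ) = 2 ^ 2 by norm_num, ← pow_add, ← pow_add]
          congr 1
          omega
  by_contra hcon
  push Not at hcon
  have h2 := Finset.sum_le_sum h1
  rw [Finset.sum_const, Finset.card_range, nsmul_eq_mul] at h2
  have h3 : ∑ k ∈ range n, ∑ t ∈ range (2 ^ K), ∑ j ∈ range (2 ^ K), |Dk α K k t j|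
      = ∑ t ∈ range (2 ^ K), ∑ j ∈ range (2 ^ K), ∑ k ∈ range n, |Dk α K k t j| := by
    refine Finset.sum_comm.trans ?_
    exact Finset.sum_congr rfl fun t _ => Finset.sum_comm
  rw [h3] at h2
  have hpos : 0 < 2 ^ K := by positivity
  have h4 : ∑ t ∈ range (2 ^ K), ∑ j ∈ range (2 ^ K), ∑ k ∈ range n, |Dk α K k t j|
      < ∑ t ∈ range (2 ^ K), ∑ j ∈ range (2 ^ K), (s : ℝ) ^ 3 / 512 := by
    refine Finset.sum_lt_sum_of_nonempty (Finset.nonempty_range_iff.2 hpos.ne') fun t ht => ?_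
    refine Finset.sum_lt_sum_of_nonempty (Finset.nonempty_range_iff.2 hpos.ne') fun j hj => ?_
    exact hcon t (Finset.mem_range.1 ht) j (Finset.mem_range.1 hj)
  simp only [Finset.sum_const, Finset.card_range, nsmul_eq_mul] at h4
  have h5 : (n : ℝ) * ((s : ℝ) * 2 ^ (2 * K) / 512)
      = ((2 ^ K : ℕ) : ℝ) * (((2 ^ K : ℕ) : ℝ) * ((s : ℝ) ^ 3 / 512)) := by
    rw [hn, two_mul K, pow_add]
    push_cast
    ring
  rw [h5] at h2
  exact absurd h4 (not_lt.2 h2)

theorem exists_W (α : ℝ) (s : ℕ) (hs : 3 ≤ s) :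
    ∃ t < 2 ^ (2 * s ^ 2), ∃ j < 2 ^ (2 * s ^ 2), ∃ W ⊆ range (s ^ 2),
      (s : ℝ) ^ 3 / 1024 ≤ |∑ k ∈ W, Dk α (2 * s ^ 2) k t j| := by
  classical
  obtain ⟨t, ht, j, hj, h⟩ := exists_tj α s hs
  refine ⟨t, ht, j, hj, ?_⟩
  set D : ℕ → ℝ := fun k => Dk α (2 * s ^ 2) k t j with hD
  have h1 : ∑ k ∈ range (s ^ 2), |D k| = ∑ k ∈ (range (s ^ 2)).filter (fun k => 0 ≤ D k), D k
      - ∑ k ∈ (range (s ^ 2)).filter (fun k => ¬ 0 ≤ D k), D k := by
    rw [← Finset.sum_filter_add_sum_filter_not (range (s ^ 2)) (fun k => 0 ≤ D k),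
      sub_eq_add_neg, ← Finset.sum_neg_distrib]
    congr 1
    · refine Finset.sum_congr rfl fun k hk => ?_
      exact abs_of_nonneg (Finset.mem_filter.1 hk).2
    · refine Finset.sum_congr rfl fun k hk => ?_
      exact abs_of_neg (not_le.1 (Finset.mem_filter.1 hk).2)
  have h2 : (s : ℝ) ^ 3 / 512 ≤ ∑ k ∈ range (s ^ 2), |D k| := h
  rw [h1] at h2
  rcases le_total ((s : ℝ) ^ 3 / 1024) (∑ k ∈ (range (s ^ 2)).filter (fun k => 0 ≤ D k), D k)
    with h3 | h3
  · exact ⟨_, Finset.filter_subset _ _, h3.trans (le_abs_self _)⟩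
  · refine ⟨(range (s ^ 2)).filter (fun k => ¬ 0 ≤ D k), Finset.filter_subset _ _, ?_⟩
    refine le_trans ?_ (neg_le_abs _)
    linarith

/-- the counting function -/
noncomputable def cnt (α a b : ℝ) (N : ℕ) : ℕ :=
  ((range N).filter (fun n : ℕ => vdc n < a ∧ Int.fract ((n : ℝ) * α) < b)).card

theorem fract_lt_iff (α : ℝ) (N m : ℕ) (hm : ∀ p : ℤ, (m : ℝ) * α ≠ p) :
    Int.fract (((N + m : ℕ) : ℝ) * α) < Int.fract ((N : ℝ) * α) ↔
      Int.fract (-((m : ℝ) * α)) ≤ Int.fract ((N : ℝ) * α) := by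
  set x := Int.fract ((N : ℝ) * α) with hx
  set y := Int.fract (-((m : ℝ) * α)) with hy
  have hx0 : 0 ≤ x := Int.fract_nonneg _
  have hx1 : x < 1 := Int.fract_lt_one _
  have hy0 : 0 ≤ y := Int.fract_nonneg _
  have hy1 : y < 1 := Int.fract_lt_one _
  have hyne : y ≠ 0 := by
    intro h0
    rw [hy, Int.fract, sub_eq_zero] at h0
    refine hm (-⌊-((m : ℝ) * α)⌋) ?_
    push_cast
    linarith
  have hypos : 0 < y := lt_of_le_of_ne hy0 (Ne.symm hyne)
  have e : ((N + m : ℕ) : ℝ) * α = (x - y) + ((⌊(N : ℝ) * α⌋ - ⌊-((m : ℝ) * α)⌋ : ℤ) : ℝ) := by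
    rw [hx, hy, Int.fract, Int.fract]
    push_cast
    ring
  rcases le_or_gt y x with h | h
  · have h1 : Int.fract (((N + m : ℕ) : ℝ) * α) = x - y := by
      rw [Int.fract_eq_iff]
      refine ⟨by linarith, by linarith, _, by rw [e]; ring_nf; rfl⟩
    rw [h1]
    exact ⟨fun _ => h, fun _ => by linarith⟩
  · have h1 : Int.fract (((N + m : ℕ) : ℝ) * α) = x - y + 1 := by
      rw [Int.fract_eq_iff]
      refine ⟨by linarith, by linarith, ⌊(N : ℝ) * α⌋ - ⌊-((m : ℝ) * α)⌋ - 1, by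
        rw [e]; push_cast; ring⟩
    rw [h1]
    exact ⟨fun h2 => by linarith, fun h2 => absurd h2 (not_le.2 h)⟩

theorem count_diff (α : ℝ) (hα : ∀ m : ℕ, 0 < m → ∀ p : ℤ, (m : ℝ) * α ≠ p) (n K h A t : ℕ)
    (W : Finset ℕ) (hW : W ⊆ range n) (hnK : n ≤ K)
    (hd : ∀ i, A / 2 ^ i % 2 = if i ∈ W then 1 else 0) (ht : t ≤ 2 ^ K) (a x : ℝ)
    (ha : a = ∑ i ∈ W, 1 / (2 : ℝ) ^ (i + 1))
    (hx : x = Int.fract (((A + 2 ^ K * h : ℕ) : ℝ) * α)) :
    (cnt α a x (A + 2 ^ K * h + t) : ℝ) - cnt α a x (A + 2 ^ K * h)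
      = ∑ k ∈ W, ∑ m ∈ PK K k, (if m < t then (1 : ℝ) else 0) *
          (if Int.fract (-((m : ℝ) * α)) ≤ x then 1 else 0) := by
  classical
  set N0 := A + 2 ^ K * h with hN0
  have h1 : (cnt α a x (N0 + t) : ℝ) - cnt α a x N0 = ∑ m ∈ range t,
      if vdc (N0 + m) < a ∧ Int.fract (((N0 + m : ℕ) : ℝ) * α) < x then (1 : ℝ) else 0 := by
    unfold cnt
    rw [Finset.card_filter, Finset.card_filter, Finset.sum_range_add]
    push_cast
    ring
  have h2 : ∀ k ∈ W, ∑ m ∈ PK K k, (if m < t then (1 : ℝ) else 0) *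
          (if Int.fract (-((m : ℝ) * α)) ≤ x then 1 else 0)
      = ∑ m ∈ range t, if m % 2 ^ (k + 1) = 2 ^ k then
          (if Int.fract (-((m : ℝ) * α)) ≤ x then (1 : ℝ) else 0) else 0 := by
    intro k _
    unfold PK
    rw [Finset.sum_filter]
    symm
    have hsub : range t ⊆ range (2 ^ K) := Finset.range_subset_range.2 ht
    have e1 : ∀ m ∈ range t, (if m % 2 ^ (k + 1) = 2 ^ k then
          (if Int.fract (-((m : ℝ) * α)) ≤ x then (1 : ℝ) else 0) else 0)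
        = if m % 2 ^ (k + 1) = 2 ^ k then ((if m < t then (1 : ℝ) else 0) *
          (if Int.fract (-((m : ℝ) * α)) ≤ x then 1 else 0)) else 0 := by
      intro m hm
      rw [if_pos (Finset.mem_range.1 hm), one_mul]
    rw [Finset.sum_congr rfl e1]
    refine Finset.sum_subset hsub fun m _ hm => ?_
    have : ¬ m < t := fun h => hm (Finset.mem_range.2 h)
    rw [if_neg this, zero_mul, ite_self]
  rw [h1, Finset.sum_congr rfl h2, Finset.sum_comm]
  refine Finset.sum_congr rfl fun m hm => ?_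
  have hmt := Finset.mem_range.1 hm
  rcases Nat.eq_zero_or_pos m with h0 | hpos
  · subst h0
    have e1 : ¬ (vdc (N0 + 0) < a ∧ Int.fract (((N0 + 0 : ℕ) : ℝ) * α) < x) := by
      rw [hx]
      simp
    rw [if_neg e1]
    symm
    refine Finset.sum_eq_zero fun k _ => ?_
    rw [Nat.zero_mod, if_neg (by positivity)]
  · obtain ⟨k, hk⟩ := val_exists hpos
    have e2 := vdc_lt_iff n K h A m k W hW hnK hd hk (lt_of_lt_of_le hmt ht)
    rw [← ha, ← hN0] at e2
    have e3 := fract_lt_iff α N0 m (hα m hpos)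
    rw [← hx] at e3
    have e4 : ∀ k' ∈ W, (if m % 2 ^ (k' + 1) = 2 ^ k' then
          (if Int.fract (-((m : ℝ) * α)) ≤ x then (1 : ℝ) else 0) else 0)
        = if k = k' then (if Int.fract (-((m : ℝ) * α)) ≤ x then (1 : ℝ) else 0) else 0 := by
      intro k' _
      by_cases hkk : k = k'
      · subst hkk
        rw [if_pos hk, if_pos rfl]
      · rw [if_neg hkk, if_neg]
        intro h3
        exact hkk (val_unique hk h3)
    rw [Finset.sum_congr rfl e4, Finset.sum_ite_eq]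
    simp only [e2, e3]
    by_cases hkW : k ∈ W
    · simp [hkW]
    · simp [hkW]

/-- The final local estimate. -/
theorem box_big (α : ℝ) (hα : ∀ m : ℕ, 0 < m → ∀ p : ℤ, (m : ℝ) * α ≠ p) (K h A t j : ℕ)
    (n : ℕ) (W : Finset ℕ) (hW : W ⊆ range n) (hnK : n ≤ K)
    (hd : ∀ i, A / 2 ^ i % 2 = if i ∈ W then 1 else 0) (ht : t ≤ 2 ^ K) (a x X : ℝ)
    (ha : a = ∑ i ∈ W, 1 / (2 : ℝ) ^ (i + 1))
    (hx : x = Int.fract (((A + 2 ^ K * h : ℕ) : ℝ) * α))
    (hcase : (X ≤ ∑ k ∈ W, Dk α K k t j ∧ (j : ℝ) / 2 ^ K ≤ x ∧ x ≤ ((j : ℝ) + 1) / 2 ^ K) ∨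
      (∑ k ∈ W, Dk α K k t j ≤ -X ∧ ((j : ℝ) - 1) / 2 ^ K ≤ x ∧ x < (j : ℝ) / 2 ^ K))
    (ha0 : 0 ≤ a) (ha1 : a ≤ 1) :
    ∃ N ≤ A + 2 ^ K * h + 2 ^ K, (X - 1) / 2 ≤ |(cnt α a x N : ℝ) - N * a * x| := by
  have hcd := count_diff α hα n K h A t W hW hnK hd ht a x ha hx
  set N0 := A + 2 ^ K * h with hN0
  have ht' : (t : ℝ) ≤ 2 ^ K := by exact_mod_cast ht
  have hDk : ∑ k ∈ W, Dk α K k t j = (∑ k ∈ W, ∑ m ∈ PK K k, (if m < t then (1 : ℝ) else 0) *
      (if cm α K m < j then (1 : ℝ) else 0)) - a * t * ((j : ℝ) / 2 ^ K) := by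
    unfold Dk disc
    rw [Finset.sum_sub_distrib]
    congr 1
    rw [ha, Finset.sum_mul, Finset.sum_mul]
    refine Finset.sum_congr rfl fun k _ => ?_
    rw [show K + k + 1 = K + (k + 1) by ring, pow_add]
    field_simp
  have hatK : a * t / 2 ^ K ≤ 1 := by
    rw [div_le_one (by positivity)]
    nlinarith [show (0 : ℝ) ≤ t by positivity]
  have hat0 : 0 ≤ a * t := by positivity
  have hkey : X - 1 ≤ |((cnt α a x (N0 + t) : ℝ) - (N0 + t : ℕ) * a * x)
      - ((cnt α a x N0 : ℝ) - N0 * a * x)| := by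
    have e1 : ((cnt α a x (N0 + t) : ℝ) - (N0 + t : ℕ) * a * x)
      - ((cnt α a x N0 : ℝ) - N0 * a * x)
        = (∑ k ∈ W, ∑ m ∈ PK K k, (if m < t then (1 : ℝ) else 0) *
          (if Int.fract (-((m : ℝ) * α)) ≤ x then 1 else 0)) - a * t * x := by
      rw [← hcd]
      push_cast
      ring
    rw [e1]
    rcases hcase with ⟨h1, h2, h3⟩ | ⟨h1, h2, h3⟩
    · refine le_trans ?_ (le_abs_self _)
      have h4 : ∑ k ∈ W, ∑ m ∈ PK K k, (if m < t then (1 : ℝ) else 0) *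
          (if cm α K m < j then (1 : ℝ) else 0)
          ≤ ∑ k ∈ W, ∑ m ∈ PK K k, (if m < t then (1 : ℝ) else 0) *
          (if Int.fract (-((m : ℝ) * α)) ≤ x then 1 else 0) := by
        refine Finset.sum_le_sum fun k _ => Finset.sum_le_sum fun m _ => ?_
        refine mul_le_mul_of_nonneg_left ?_ (by split_ifs <;> norm_num)
        by_cases h5 : cm α K m < j
        · have h6 := (cm_lt_iff α K m j).1 h5
          rw [if_pos h5, if_pos (h6.le.trans h2)]
        · rw [if_neg h5]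
          split_ifs <;> norm_num
      have h5 : a * t * x ≤ a * t * ((j : ℝ) / 2 ^ K) + 1 := by
        have : a * t * x ≤ a * t * (((j : ℝ) + 1) / 2 ^ K) :=
          mul_le_mul_of_nonneg_left h3 hat0
        have e2 : a * t * (((j : ℝ) + 1) / 2 ^ K) = a * t * ((j : ℝ) / 2 ^ K) + a * t / 2 ^ K := by
          ring
        linarith
      linarith
    · refine le_trans ?_ (neg_le_abs _)
      have h4 : ∑ k ∈ W, ∑ m ∈ PK K k, (if m < t then (1 : ℝ) else 0) *
          (if Int.fract (-((m : ℝ) * α)) ≤ x then 1 else 0)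
          ≤ ∑ k ∈ W, ∑ m ∈ PK K k, (if m < t then (1 : ℝ) else 0) *
          (if cm α K m < j then (1 : ℝ) else 0) := by
        refine Finset.sum_le_sum fun k _ => Finset.sum_le_sum fun m _ => ?_
        refine mul_le_mul_of_nonneg_left ?_ (by split_ifs <;> norm_num)
        by_cases h5 : Int.fract (-((m : ℝ) * α)) ≤ x
        · have h6 := (cm_lt_iff α K m j).2 (lt_of_le_of_lt h5 h3)
          rw [if_pos h5, if_pos h6]
        · rw [if_neg h5]
          split_ifs <;> norm_num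
      have h5 : a * t * ((j : ℝ) / 2 ^ K) - 1 ≤ a * t * x := by
        have : a * t * (((j : ℝ) - 1) / 2 ^ K) ≤ a * t * x :=
          mul_le_mul_of_nonneg_left h2 hat0
        have e2 : a * t * (((j : ℝ) - 1) / 2 ^ K) = a * t * ((j : ℝ) / 2 ^ K) - a * t / 2 ^ K := by
          ring
        linarith
      linarith
  have habs := hkey.trans (abs_sub _ _)
  rcases le_total ((X - 1) / 2) |(cnt α a x N0 : ℝ) - N0 * a * x| with h1 | h1
  · exact ⟨N0, by omega, h1⟩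
  · refine ⟨N0 + t, by omega, ?_⟩
    linarith

end Pool.Agent.Lib.MP_a3f376_nt
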