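import Pool.Agent.Lib.MP_a3f376_nt.Count

/-! Return times of rotations of finite type and the main estimate. -/

namespace Pool.Agent.Lib.MP_a3f376_nt

open Finset

theorem hit (y0 δ τ w : ℝ) (hy0 : 0 ≤ y0) (hy1 : y0 < 1) (hδ : δ ≠ 0) (hw : |δ| < w)
    (hτ0 : 0 ≤ τ) (hτ1 : τ + w ≤ 1) :
    ∃ r : ℕ, (r : ℝ) ≤ 1 / |δ| + 1 ∧ τ ≤ Int.fract (y0 + r * δ) ∧
      Int.fract (y0 + r * δ) < τ + w := by
  have hwpos : 0 < w := lt_of_le_of_lt (abs_nonneg _) hw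
  -- reduction: it is enough to land in an integer translate
  have key : ∀ (r : ℕ) (z : ℤ), τ + z ≤ y0 + r * δ → y0 + r * δ < τ + z + w →
      τ ≤ Int.fract (y0 + r * δ) ∧ Int.fract (y0 + r * δ) < τ + w := by
    intro r z h1 h2
    have h3 : Int.fract (y0 + r * δ) = y0 + r * δ - z := by
      rw [Int.fract_eq_iff]
      exact ⟨by linarith, by linarith, z, by ring⟩
    rw [h3]
    constructor <;> linarith
  rcases lt_or_gt_of_ne hδ with hneg | hpos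
  · have habs : |δ| = -δ := abs_of_neg hneg
    have hd : 0 < -δ := by linarith
    rw [habs] at hw ⊢
    obtain ⟨z, hz1, hz2⟩ : ∃ z : ℤ, 0 ≤ y0 - (τ + z) ∧ y0 - (τ + z) ≤ 1 := by
      by_cases h : τ ≤ y0
      · exact ⟨0, by push_cast; linarith, by push_cast; linarith⟩
      · push Not at h
        exact ⟨-1, by push_cast; linarith, by push_cast; linarith⟩
    refine ⟨⌊(y0 - (τ + z)) / (-δ)⌋₊, ?_, ?_⟩
    · have h1 := Nat.floor_le (show 0 ≤ (y0 - (τ + z)) / (-δ) by positivity)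
      have h2 : (y0 - (τ + z)) / (-δ) ≤ 1 / (-δ) := div_le_div_of_nonneg_right hz2 hd.le
      linarith
    · have h1 := Nat.floor_le (show 0 ≤ (y0 - (τ + z)) / (-δ) by positivity)
      have h2 := Nat.lt_floor_add_one ((y0 - (τ + z)) / (-δ))
      rw [le_div_iff₀ hd] at h1
      rw [div_lt_iff₀ hd] at h2
      exact key _ z (by linarith) (by linarith)
  · have habs : |δ| = δ := abs_of_pos hpos
    rw [habs] at hw ⊢
    obtain ⟨z, hz1, hz2⟩ : ∃ z : ℤ, 0 ≤ (τ + z) - y0 ∧ (τ + z) - y0 ≤ 1 := by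
      by_cases h : y0 ≤ τ
      · exact ⟨0, by push_cast; linarith, by push_cast; linarith⟩
      · push Not at h
        exact ⟨1, by push_cast; linarith, by push_cast; linarith⟩
    refine ⟨⌈((τ + z) - y0) / δ⌉₊, ?_, ?_⟩
    · have h1 := Nat.ceil_lt_add_one (show 0 ≤ ((τ + z) - y0) / δ by positivity)
      have h2 : ((τ + z) - y0) / δ ≤ 1 / δ := div_le_div_of_nonneg_right hz2 hpos.le
      linarith
    · have h1 := Nat.ceil_lt_add_one (show 0 ≤ ((τ + z) - y0) / δ by positivity)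
      have h2 := Nat.le_ceil (((τ + z) - y0) / δ)
      rw [div_le_iff₀ hpos] at h2
      have h3 : (⌈((τ + z) - y0) / δ⌉₊ : ℝ) * δ < ((τ + z) - y0) + δ := by
        have := mul_lt_mul_of_pos_right h1 hpos
        rwa [add_mul, div_mul_cancel₀ _ hpos.ne', one_mul] at this
      exact key _ z (by linarith) (by linarith)

/-- Finite Diophantine type. -/
def FType (α c : ℝ) (κ : ℕ) : Prop :=
  ∀ q : ℕ, 0 < q → ∀ p : ℤ, c / (q : ℝ) ^ κ ≤ |(q : ℝ) * α - p|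

theorem dense_hit (α c : ℝ) (κ : ℕ) (hc : 0 < c) (hα : FType α c κ) (K A i : ℕ)
    (hi : i < 2 ^ K) :
    ∃ h : ℕ, (h : ℝ) ≤ 2 ^ K * (2 ^ (2 * K * κ) / c + 1) ∧
      (i : ℝ) / 2 ^ K ≤ Int.fract (((A + 2 ^ K * h : ℕ) : ℝ) * α) ∧
      Int.fract (((A + 2 ^ K * h : ℕ) : ℝ) * α) < ((i : ℝ) + 1) / 2 ^ K := by
  obtain ⟨q, hq0, hqQ, hq⟩ := Real.exists_nat_abs_mul_sub_round_le ((2 : ℝ) ^ K * α)
    (n := 2 ^ K) (by positivity)
  set δ : ℝ := (q : ℝ) * ((2 : ℝ) ^ K * α) - round ((q : ℝ) * ((2 : ℝ) ^ K * α)) with hδ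
  have hlow : c / 2 ^ (2 * K * κ) ≤ |δ| := by
    have h1 := hα (q * 2 ^ K) (by positivity) (round ((q : ℝ) * ((2 : ℝ) ^ K * α)))
    have h2 : ((q * 2 ^ K : ℕ) : ℝ) * α - (round ((q : ℝ) * ((2 : ℝ) ^ K * α)) : ℤ) = δ := by
      rw [hδ]; push_cast; ring
    rw [h2] at h1
    refine le_trans ?_ h1
    have h3 : ((q * 2 ^ K : ℕ) : ℝ) ^ κ ≤ 2 ^ (2 * K * κ) := by
      have h4 : ((q * 2 ^ K : ℕ) : ℝ) ≤ 2 ^ (2 * K) := by
        rw [two_mul, pow_add]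
        push_cast
        have : (q : ℝ) ≤ 2 ^ K := by exact_mod_cast hqQ
        gcongr
      calc ((q * 2 ^ K : ℕ) : ℝ) ^ κ ≤ (2 ^ (2 * K)) ^ κ := pow_le_pow_left₀ (by positivity) h4 κ
        _ = 2 ^ (2 * K * κ) := by rw [← pow_mul]
    have h5 : (0 : ℝ) < ((q * 2 ^ K : ℕ) : ℝ) ^ κ := by positivity
    exact div_le_div_of_nonneg_left hc.le h5 h3
  have hδpos : 0 < |δ| := lt_of_lt_of_le (by positivity) hlow
  have hδne : δ ≠ 0 := abs_pos.1 hδpos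
  have hδw : |δ| < 1 / 2 ^ K := by
    refine lt_of_le_of_lt hq ?_
    push_cast
    exact one_div_lt_one_div_of_lt (by positivity) (by linarith)
  have hi' : (i : ℝ) + 1 ≤ 2 ^ K := by exact_mod_cast hi
  have hcell : (i : ℝ) / 2 ^ K + 1 / 2 ^ K ≤ 1 := by
    rw [← add_div, div_le_one (by positivity)]
    exact hi'
  obtain ⟨r, hr, h1, h2⟩ := hit (Int.fract ((A : ℝ) * α)) δ ((i : ℝ) / 2 ^ K) (1 / 2 ^ K)
    (Int.fract_nonneg _) (Int.fract_lt_one _) hδne hδw (by positivity) hcell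
  refine ⟨r * q, ?_, ?_⟩
  · have h3 : 1 / |δ| ≤ 2 ^ (2 * K * κ) / c := by
      have := one_div_le_one_div_of_le (by positivity) hlow
      rwa [one_div_div] at this
    have h4 : (q : ℝ) ≤ 2 ^ K := by exact_mod_cast hqQ
    push_cast
    calc (r : ℝ) * q ≤ (2 ^ (2 * K * κ) / c + 1) * 2 ^ K := by
          apply mul_le_mul (by linarith) h4 (by positivity) (by positivity)
      _ = 2 ^ K * (2 ^ (2 * K * κ) / c + 1) := by ring
  · have h3 : Int.fract (((A + 2 ^ K * (r * q) : ℕ) : ℝ) * α)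
        = Int.fract (Int.fract ((A : ℝ) * α) + r * δ) := by
      have e : ((A + 2 ^ K * (r * q) : ℕ) : ℝ) * α
          = (Int.fract ((A : ℝ) * α) + r * δ) + ((⌊(A : ℝ) * α⌋
            + r * round ((q : ℝ) * ((2 : ℝ) ^ K * α)) : ℤ) : ℝ) := by
        rw [hδ, Int.fract]
        push_cast
        ring
      rw [e, Int.fract_add_intCast]
    rw [h3]
    refine ⟨h1, ?_⟩
    rw [add_div]
    exact h2

theorem FType.ne_int {α c : ℝ} {κ : ℕ} (hc : 0 < c) (h : FType α c κ) :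
    ∀ m : ℕ, 0 < m → ∀ p : ℤ, (m : ℝ) * α ≠ p := by
  intro m hm p he
  have h1 := h m hm p
  rw [he, sub_self, abs_zero] at h1
  have : 0 < c / (m : ℝ) ^ κ := by positivity
  linarith

theorem Dk_zero (α : ℝ) (K k t : ℕ) : Dk α K k t 0 = 0 := by
  unfold Dk disc
  simp

theorem sum_W_le_one (n : ℕ) (W : Finset ℕ) (hW : W ⊆ range n) :
    ∑ i ∈ W, 1 / (2 : ℝ) ^ (i + 1) ≤ 1 := by
  have h1 : ∑ i ∈ W, 1 / (2 : ℝ) ^ (i + 1) ≤ ∑ i ∈ range n, 1 / (2 : ℝ) ^ (i + 1) :=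
    Finset.sum_le_sum_of_subset_of_nonneg hW fun _ _ _ => by positivity
  have h2 : ∀ n : ℕ, ∑ i ∈ range n, 1 / (2 : ℝ) ^ (i + 1) = 1 - 1 / 2 ^ n := by
    intro n
    induction n with
    | zero => simp
    | succ n ih =>
      rw [Finset.sum_range_succ, ih, pow_succ]
      field_simp
      ring
  rw [h2] at h1
  have : (0 : ℝ) < 1 / 2 ^ n := by positivity
  linarith

theorem step (α c : ℝ) (κ : ℕ) (hc : 0 < c) (hα : FType α c κ) (s : ℕ) (hs : 3 ≤ s) :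
    ∃ N : ℕ, (N : ℝ) ≤ 2 ^ (2 * s ^ 2) * (2 ^ (2 * s ^ 2) *
        (2 ^ (2 * (2 * s ^ 2) * κ) / c + 1) + 2) ∧
      ∃ a b : ℝ, 0 ≤ a ∧ a ≤ 1 ∧ 0 ≤ b ∧ b ≤ 1 ∧
        ((s : ℝ) ^ 3 / 1024 - 1) / 2 ≤ |(cnt α a b N : ℝ) - N * a * b| := by
  obtain ⟨t, ht, j, hj, W, hW, hX⟩ := exists_W α s hs
  obtain ⟨A, hA, hd⟩ := exists_digits (s ^ 2) W hW
  set K := 2 * s ^ 2 with hK
  have hA' : A < 2 ^ K := lt_of_lt_of_le hA (Nat.pow_le_pow_right (by norm_num) (by omega))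
  have ha0 : 0 ≤ ∑ i ∈ W, 1 / (2 : ℝ) ^ (i + 1) := Finset.sum_nonneg fun _ _ => by positivity
  have ha1 := sum_W_le_one (s ^ 2) W hW
  have hne := hα.ne_int hc
  have hNb : ∀ h N : ℕ, (h : ℝ) ≤ 2 ^ K * (2 ^ (2 * K * κ) / c + 1) →
      N ≤ A + 2 ^ K * h + 2 ^ K →
      (N : ℝ) ≤ 2 ^ K * (2 ^ K * (2 ^ (2 * K * κ) / c + 1) + 2) := by
    intro h N h1 h2
    have h3 : (N : ℝ) ≤ A + 2 ^ K * h + 2 ^ K := by exact_mod_cast h2
    have h4 : (A : ℝ) ≤ 2 ^ K := by exact_mod_cast hA'.le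
    have h5 : (2 : ℝ) ^ K * h ≤ 2 ^ K * (2 ^ K * (2 ^ (2 * K * κ) / c + 1)) :=
      mul_le_mul_of_nonneg_left h1 (by positivity)
    have e : (2 : ℝ) ^ K * (2 ^ K * (2 ^ (2 * K * κ) / c + 1) + 2)
        = 2 ^ K * (2 ^ K * (2 ^ (2 * K * κ) / c + 1)) + 2 ^ K + 2 ^ K := by ring
    rw [e]
    linarith
  rcases le_or_gt 0 (∑ k ∈ W, Dk α K k t j) with hsgn | hsgn
  · rw [abs_of_nonneg hsgn] at hX
    obtain ⟨h, hh, hx1, hx2⟩ := dense_hit α c κ hc hα K A j hj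
    obtain ⟨N, hN, hbig⟩ := box_big α hne K h A t j (s ^ 2) W hW (by omega) hd ht.le
      (∑ i ∈ W, 1 / (2 : ℝ) ^ (i + 1)) _ ((s : ℝ) ^ 3 / 1024) rfl rfl
      (Or.inl ⟨hX, hx1, hx2.le⟩) ha0 ha1
    exact ⟨N, hNb h N hh hN, _, _, ha0, ha1, Int.fract_nonneg _, (Int.fract_lt_one _).le, hbig⟩
  · rw [abs_of_neg hsgn] at hX
    have hj0 : j ≠ 0 := by
      rintro rfl
      simp only [Dk_zero, Finset.sum_const_zero, lt_irrefl] at hsgn
    obtain ⟨i, rfl⟩ := Nat.exists_eq_succ_of_ne_zero hj0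
    obtain ⟨h, hh, hx1, hx2⟩ := dense_hit α c κ hc hα K A i (by omega)
    obtain ⟨N, hN, hbig⟩ := box_big α hne K h A t (Nat.succ i) (s ^ 2) W hW (by omega) hd ht.le
      (∑ i ∈ W, 1 / (2 : ℝ) ^ (i + 1)) _ ((s : ℝ) ^ 3 / 1024) rfl rfl
      (Or.inr ⟨by linarith, by rw [Nat.cast_succ, add_sub_cancel_right]; exact hx1,
        by rw [Nat.cast_succ]; exact hx2⟩) ha0 ha1
    exact ⟨N, hNb h N hh hN, _, _, ha0, ha1, Int.fract_nonneg _, (Int.fract_lt_one _).le, hbig⟩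

end Pool.Agent.Lib.MP_a3f376_nt
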