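import Pool.Agent.Lib.MP_a3f376_nt.Dense

/-! Asymptotic form of the lower bound. -/

namespace Pool.Agent.Lib.MP_a3f376_nt

open Finset Filter

theorem N_bound (c : ℝ) (κ s : ℕ) (hc : 0 < c) (hs : 1 / c + 3 ≤ s) :
    (2 : ℝ) ^ (2 * s ^ 2) * (2 ^ (2 * s ^ 2) *
        (2 ^ (2 * (2 * s ^ 2) * κ) / c + 1) + 2)
      ≤ Real.exp (((4 + 4 * κ) * Real.log 2 + 1) * (s : ℝ) ^ 2) := by
  set U : ℝ := 2 ^ (2 * s ^ 2) with hU
  set V : ℝ := 2 ^ (2 * (2 * s ^ 2) * κ) with hV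
  have hU1 : 1 ≤ U := one_le_pow₀ (by norm_num)
  have hV1 : 1 ≤ V := one_le_pow₀ (by norm_num)
  have hci : 0 < 1 / c := by positivity
  have e1 : U * (U * (V / c + 1) + 2) ≤ U ^ 2 * V * (1 / c + 3) := by
    have e2 : U * (U * (V / c + 1) + 2) = U ^ 2 * V * (1 / c) + U ^ 2 + 2 * U := by ring
    have e3 : U ^ 2 ≤ U ^ 2 * V := by nlinarith [sq_nonneg U]
    have e4 : U ≤ U ^ 2 := by nlinarith
    rw [e2]
    nlinarith
  refine e1.trans ?_
  have e5 : U ^ 2 * V = Real.exp (((4 + 4 * κ) * Real.log 2) * (s : ℝ) ^ 2) := by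
    have : ((4 + 4 * κ) * Real.log 2) * (s : ℝ) ^ 2
        = ((2 * s ^ 2 * 2 + 2 * (2 * s ^ 2) * κ : ℕ) : ℝ) * Real.log 2 := by
      push_cast; ring
    rw [this, ← Real.log_pow, Real.exp_log (by positivity), hU, hV, ← pow_mul, ← pow_add]
  have e6 : 1 / c + 3 ≤ Real.exp ((s : ℝ) ^ 2) := by
    have h1 := Real.add_one_le_exp ((s : ℝ) ^ 2)
    have h2 : (s : ℝ) ≤ (s : ℝ) ^ 2 := by nlinarith
    linarith
  rw [e5]
  calc Real.exp (((4 + 4 * κ) * Real.log 2) * (s : ℝ) ^ 2) * (1 / c + 3)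
      ≤ Real.exp (((4 + 4 * κ) * Real.log 2) * (s : ℝ) ^ 2) * Real.exp ((s : ℝ) ^ 2) :=
        mul_le_mul_of_nonneg_left e6 (Real.exp_pos _).le
    _ = Real.exp (((4 + 4 * κ) * Real.log 2 + 1) * (s : ℝ) ^ 2) := by
        rw [← Real.exp_add]; congr 1; ring

theorem ev_main (κ : ℕ) : ∃ c₁ : ℝ, 0 < c₁ ∧ ∀ α c : ℝ, 0 < c → FType α c κ →
    ∀ᶠ X : ℝ in atTop, ∃ N : ℕ, (N : ℝ) ≤ X ∧ ∃ a b : ℝ, 0 ≤ a ∧ a ≤ 1 ∧ 0 ≤ b ∧ b ≤ 1 ∧
      c₁ * (Real.log X) ^ (3 / 2 : ℝ) ≤ |(cnt α a b N : ℝ) - N * a * b| := by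
  set B : ℝ := (4 + 4 * κ) * Real.log 2 + 1 with hB
  have hB0 : 0 < B := by
    have := Real.log_pos (show (1 : ℝ) < 2 by norm_num)
    positivity
  refine ⟨1 / (32768 * B ^ (3 / 2 : ℝ)), by positivity, ?_⟩
  intro α c hc hα
  have ht : Tendsto (fun X : ℝ => Real.sqrt (Real.log X / B)) atTop atTop :=
    Real.tendsto_sqrt_atTop.comp (Real.tendsto_log_atTop.atTop_div_const hB0)
  have hfl : Tendsto (fun X : ℝ => ⌊Real.sqrt (Real.log X / B)⌋₊) atTop atTop :=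
    tendsto_nat_floor_atTop.comp ht
  filter_upwards [hfl.eventually_ge_atTop 13, hfl.eventually_ge_atTop ⌈1 / c + 3⌉₊,
    eventually_gt_atTop (1 : ℝ)] with X h13 hcs hX1
  set y := Real.sqrt (Real.log X / B) with hy
  set s := ⌊y⌋₊ with hs
  have hlog : 0 < Real.log X := Real.log_pos hX1
  have hy2 : B * y ^ 2 = Real.log X := by
    rw [hy, Real.sq_sqrt (by positivity)]
    field_simp
  have hy0 : 0 ≤ y := Real.sqrt_nonneg _
  have hsy : (s : ℝ) ≤ y := Nat.floor_le hy0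
  have hys : y < s + 1 := Nat.lt_floor_add_one y
  have hs13 : (13 : ℝ) ≤ s := by exact_mod_cast h13
  have hsc : 1 / c + 3 ≤ s := by
    have h1 := Nat.le_ceil (1 / c + 3)
    have h2 : ((⌈1 / c + 3⌉₊ : ℕ) : ℝ) ≤ s := by exact_mod_cast hcs
    linarith
  obtain ⟨N, hN, a, b, ha0, ha1, hb0, hb1, hbig⟩ := step α c κ hc hα s (by omega)
  refine ⟨N, ?_, a, b, ha0, ha1, hb0, hb1, ?_⟩
  · refine hN.trans ((N_bound c κ s hc hsc).trans ?_)
    have h1 : B * (s : ℝ) ^ 2 ≤ Real.log X := by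
      rw [← hy2]
      exact mul_le_mul_of_nonneg_left (pow_le_pow_left₀ (by positivity) hsy 2) hB0.le
    calc Real.exp (B * (s : ℝ) ^ 2) ≤ Real.exp (Real.log X) := Real.exp_le_exp.2 h1
      _ = X := Real.exp_log (by linarith)
  · refine le_trans ?_ hbig
    have h1 : (Real.log X) ^ (3 / 2 : ℝ) = B ^ (3 / 2 : ℝ) * y ^ 3 := by
      rw [← hy2, Real.mul_rpow hB0.le (by positivity)]
      congr 1
      rw [← Real.rpow_natCast y 2, ← Real.rpow_mul hy0, ← Real.rpow_natCast y 3]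
      norm_num
    have hBp : 0 < B ^ (3 / 2 : ℝ) := by positivity
    have h2 : 1 / (32768 * B ^ (3 / 2 : ℝ)) * (B ^ (3 / 2 : ℝ) * y ^ 3) = y ^ 3 / 32768 := by
      field_simp
    rw [h1, h2]
    have h3 : y ^ 3 ≤ (2 * (s : ℝ)) ^ 3 := pow_le_pow_left₀ hy0 (by linarith) 3
    have h4 : (2197 : ℝ) ≤ (s : ℝ) ^ 3 := by
      have := pow_le_pow_left₀ (by norm_num) hs13 3
      norm_num at this
      exact this
    have h5 : (2 * (s : ℝ)) ^ 3 = 8 * (s : ℝ) ^ 3 := by ring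
    rw [h5] at h3
    linarith

theorem cnt_le (α a b : ℝ) (N : ℕ) : cnt α a b N ≤ N := by
  unfold cnt
  refine (Finset.card_filter_le _ _).trans ?_
  rw [Finset.card_range]

theorem disc_le (α a b : ℝ) (N : ℕ) (ha0 : 0 ≤ a) (ha1 : a ≤ 1) (hb0 : 0 ≤ b) (hb1 : b ≤ 1) :
    |(cnt α a b N : ℝ) - N * a * b| ≤ N := by
  have h1 : (cnt α a b N : ℝ) ≤ N := by exact_mod_cast cnt_le α a b N
  have h2 : (0 : ℝ) ≤ cnt α a b N := by positivity
  have h3 : (N : ℝ) * a * b ≤ N := by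
    have h4 : (N : ℝ) * a ≤ N := by nlinarith [show (0 : ℝ) ≤ N by positivity]
    have h5 : 0 ≤ (N : ℝ) * a := by positivity
    nlinarith
  have h6 : 0 ≤ (N : ℝ) * a * b := by positivity
  rw [abs_le]
  constructor <;> linarith

theorem vdc_lt_one (n : ℕ) : vdc n < 1 := by
  unfold vdc
  have : ∀ M : ℕ, ∑ i ∈ Finset.range M, ((n / 2 ^ i % 2 : ℕ) : ℝ) / (2 : ℝ) ^ (i + 1)
      ≤ 1 - 1 / 2 ^ M := by
    intro M
    induction M with
    | zero => simp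
    | succ M ih =>
      rw [Finset.sum_range_succ]
      have h2 : ((n / 2 ^ M % 2 : ℕ) : ℝ) ≤ 1 := by
        have : n / 2 ^ M % 2 ≤ 1 := by omega
        exact_mod_cast this
      have h3 : ((n / 2 ^ M % 2 : ℕ) : ℝ) / (2 : ℝ) ^ (M + 1) ≤ 1 / 2 ^ (M + 1) :=
        div_le_div_of_nonneg_right h2 (by positivity)
      have h4 : (1 : ℝ) / 2 ^ M = 2 * (1 / 2 ^ (M + 1)) := by
        rw [pow_succ]; field_simp
      linarith
  have h1 := this (n + 1)
  have h2 : (0 : ℝ) < 1 / 2 ^ (n + 1) := by positivity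
  linarith

theorem case2 (α : ℝ) (h : ¬ ∃ c : ℝ, 0 < c ∧ FType α c 3) (M : ℕ) :
    ∃ N : ℕ, M < N ∧ ∃ b : ℝ, 0 ≤ b ∧ b ≤ 1 ∧
      Real.sqrt N / 4 ≤ |(cnt α 1 b N : ℝ) - N * 1 * b| := by
  set m := M + 1 with hm
  have hm1 : (1 : ℝ) ≤ m := by rw [hm]; push_cast; linarith [show (0 : ℝ) ≤ M by positivity]
  have h1 : ¬ FType α (1 / (4 * (m : ℝ) ^ 2)) 3 := fun hf => h ⟨_, by positivity, hf⟩
  unfold FType at h1
  push Not at h1
  obtain ⟨q, hq0, p, hp⟩ := h1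
  have hq1 : (1 : ℝ) ≤ q := by exact_mod_cast hq0
  have hq0' : (0 : ℝ) < q := by linarith
  refine ⟨(q * m) ^ 2, ?_, ?_⟩
  · calc M < m := by omega
      _ ≤ q * m := Nat.le_mul_of_pos_left m hq0
      _ ≤ (q * m) ^ 2 := Nat.le_self_pow (by norm_num) _
  set N := (q * m) ^ 2 with hN
  have hNr : (N : ℝ) = (q : ℝ) ^ 2 * (m : ℝ) ^ 2 := by rw [hN]; push_cast; ring
  -- small error
  have herr : ∀ n < N, |(n : ℝ) * (α - p / q)| < 1 / (4 * q) := by
    intro n hn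
    have h2 : (n : ℝ) < N := by exact_mod_cast hn
    have h3 : α - p / q = ((q : ℝ) * α - p) / q := by field_simp
    have hn0 : (0 : ℝ) ≤ n := by positivity
    rw [h3, abs_mul, abs_div, abs_of_nonneg hn0, abs_of_pos hq0']
    have h4 : |(q : ℝ) * α - p| / q ≤ (1 / (4 * (m : ℝ) ^ 2) / (q : ℝ) ^ 3) / q :=
      div_le_div_of_nonneg_right hp.le hq0'.le
    have h5 : (0 : ℝ) < (1 / (4 * (m : ℝ) ^ 2) / (q : ℝ) ^ 3) / q := by positivity
    calc (n : ℝ) * (|(q : ℝ) * α - p| / q)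
        ≤ n * ((1 / (4 * (m : ℝ) ^ 2) / (q : ℝ) ^ 3) / q) := mul_le_mul_of_nonneg_left h4 hn0
      _ < N * ((1 / (4 * (m : ℝ) ^ 2) / (q : ℝ) ^ 3) / q) := mul_lt_mul_of_pos_right h2 h5
      _ = 1 / (4 * (q : ℝ) ^ 2) := by rw [hNr]; field_simp
      _ ≤ 1 / (4 * q) := by
          apply one_div_le_one_div_of_le (by positivity)
          nlinarith
  have hgap : ∀ n < N, (Int.fract ((n : ℝ) * α) < 1 / (4 * q) ↔
      Int.fract ((n : ℝ) * α) < 3 / (4 * q)) := by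
    intro n hn
    have he := herr n hn
    set e := (n : ℝ) * (α - p / q) with hedef
    obtain ⟨he1, he2⟩ := abs_lt.1 he
    have hdm := Int.mul_ediv_add_emod ((n : ℤ) * p) q
    set l := (n : ℤ) * p / q with hl
    set r := (n : ℤ) * p % q with hr
    have hr0 : 0 ≤ r := Int.emod_nonneg _ (by exact_mod_cast hq0.ne')
    have hrq : r < q := Int.emod_lt_of_pos _ (by exact_mod_cast hq0)
    have hdmr : (q : ℝ) * l + r = n * p := by exact_mod_cast hdm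
    have hna : (n : ℝ) * α = l + r / q + e := by
      rw [hedef]
      have : (l : ℝ) + r / q = (n * p) / q := by rw [← hdmr]; field_simp
      rw [this]
      ring
    have h14 : (1 : ℝ) / (4 * q) = (1 / q) / 4 := by field_simp
    have h34 : (3 : ℝ) / (4 * q) = 3 * ((1 / q) / 4) := by field_simp
    rw [h14] at he1 he2 ⊢
    rw [h34]
    have hqi : (0 : ℝ) < 1 / q := by positivity
    have hqi1 : (1 : ℝ) / q ≤ 1 := by rw [div_le_one hq0']; exact hq1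
    rcases hr0.eq_or_lt with h0 | hpos
    · have hr' : (r : ℝ) = 0 := by exact_mod_cast h0.symm
      rw [hr', zero_div, add_zero] at hna
      rcases le_or_gt 0 e with h5 | h5
      · have : Int.fract ((n : ℝ) * α) = e := by
          rw [Int.fract_eq_iff]
          exact ⟨h5, by linarith, l, by linarith⟩
        rw [this]
        constructor <;> intro <;> linarith
      · have : Int.fract ((n : ℝ) * α) = e + 1 := by
          rw [Int.fract_eq_iff]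
          exact ⟨by linarith, by linarith, l - 1, by push_cast; linarith⟩
        rw [this]
        constructor <;> intro <;> linarith
    · have hr1 : (1 : ℝ) ≤ r := by exact_mod_cast hpos
      have hr2 : (r : ℝ) ≤ q - 1 := by
        have : r ≤ (q : ℤ) - 1 := by omega
        exact_mod_cast this
      have h6 : (1 : ℝ) / q ≤ r / q := div_le_div_of_nonneg_right hr1 hq0'.le
      have h7 : (r : ℝ) / q ≤ 1 - 1 / q := by
        rw [div_le_iff₀ hq0', sub_mul, one_div_mul_cancel hq0'.ne', one_mul]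
        exact hr2
      have : Int.fract ((n : ℝ) * α) = r / q + e := by
        rw [Int.fract_eq_iff]
        exact ⟨by linarith, by linarith, l, by linarith⟩
      rw [this]
      constructor <;> intro <;> linarith
  have hcnt : cnt α 1 (1 / (4 * q)) N = cnt α 1 (3 / (4 * q)) N := by
    unfold cnt
    congr 1
    refine Finset.filter_congr fun n hn => ?_
    rw [hgap n (Finset.mem_range.1 hn)]
  have hb1 : (1 : ℝ) / (4 * q) ≤ 1 := by
    rw [div_le_one (by positivity)]; linarith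
  have hb2 : (3 : ℝ) / (4 * q) ≤ 1 := by
    rw [div_le_one (by positivity)]; linarith
  have hsq : Real.sqrt N = q * m := by
    rw [hNr, ← mul_pow, Real.sqrt_sq (by positivity)]
  have hbig : (q : ℝ) * m / 4 ≤ N * (1 / (4 * q)) := by
    rw [hNr]
    have : (q : ℝ) ^ 2 * (m : ℝ) ^ 2 * (1 / (4 * q)) = (q * m) * m / 4 := by field_simp
    rw [this]
    have : (q : ℝ) * m ≤ (q * m) * m := by nlinarith [show (0 : ℝ) < q * m by positivity]
    linarith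
  have hsum : 2 * (N * (1 / (4 * (q : ℝ)))) ≤ |(cnt α 1 (1 / (4 * q)) N : ℝ) - N * 1 * (1 / (4 * q))|
      + |(cnt α 1 (3 / (4 * q)) N : ℝ) - N * 1 * (3 / (4 * q))| := by
    rw [hcnt]
    have h5 := abs_sub ((cnt α 1 (3 / (4 * q)) N : ℝ) - N * 1 * (1 / (4 * q)))
      ((cnt α 1 (3 / (4 * q)) N : ℝ) - N * 1 * (3 / (4 * q)))
    have h6 : ((cnt α 1 (3 / (4 * q)) N : ℝ) - N * 1 * (1 / (4 * q)))
      - ((cnt α 1 (3 / (4 * q)) N : ℝ) - N * 1 * (3 / (4 * q))) = 2 * (N * (1 / (4 * (q : ℝ)))) := by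
      field_simp
      ring
    rw [h6] at h5
    exact (le_abs_self _).trans h5
  rw [hsq]
  rcases le_total (N * (1 / (4 * (q : ℝ)))) |(cnt α 1 (1 / (4 * q)) N : ℝ) - N * 1 * (1 / (4 * q))|
    with h7 | h7
  · exact ⟨_, by positivity, hb1, by linarith⟩
  · exact ⟨_, by positivity, hb2, by linarith⟩

theorem log_pow_le (N : ℕ) (hN : 1 ≤ N) :
    (Real.log N) ^ (3 / 2 : ℝ) ≤ 9 * Real.sqrt N := by
  have hN1 : (1 : ℝ) ≤ N := by exact_mod_cast hN
  have h1 : Real.log N ≤ (N : ℝ) ^ (1 / 3 : ℝ) / (1 / 3) :=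
    Real.log_le_rpow_div (by positivity) (by norm_num)
  have h2 : 0 ≤ Real.log N := Real.log_nonneg hN1
  calc (Real.log N) ^ (3 / 2 : ℝ) ≤ ((N : ℝ) ^ (1 / 3 : ℝ) / (1 / 3)) ^ (3 / 2 : ℝ) :=
        Real.rpow_le_rpow h2 h1 (by norm_num)
    _ = (3 * (N : ℝ) ^ (1 / 3 : ℝ)) ^ (3 / 2 : ℝ) := by
        congr 1; ring
    _ = 3 ^ (3 / 2 : ℝ) * Real.sqrt N := by
        rw [Real.mul_rpow (by norm_num) (by positivity), ← Real.rpow_mul (by positivity),
          Real.sqrt_eq_rpow]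
        norm_num
    _ ≤ 9 * Real.sqrt N := by
        have h3 : (3 : ℝ) ^ (3 / 2 : ℝ) ≤ 3 ^ (2 : ℝ) :=
          Real.rpow_le_rpow_of_exponent_le (by norm_num) (by norm_num)
        have h4 : (3 : ℝ) ^ (2 : ℝ) = 9 := by norm_num
        rw [h4] at h3
        exact mul_le_mul_of_nonneg_right h3 (Real.sqrt_nonneg _)

theorem io_main : ∃ c : ℝ, 0 < c ∧ ∀ α : ℝ, ∀ M : ℕ, ∃ N : ℕ, M < N ∧
    ∃ a b : ℝ, 0 ≤ a ∧ a ≤ 1 ∧ 0 ≤ b ∧ b ≤ 1 ∧
      c * (Real.log N) ^ (3 / 2 : ℝ) ≤ |(cnt α a b N : ℝ) - N * a * b| := by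
  obtain ⟨c₁, hc₁, H⟩ := ev_main 3
  refine ⟨min c₁ (1 / 36), by positivity, ?_⟩
  intro α M
  by_cases h : ∃ c : ℝ, 0 < c ∧ FType α c 3
  · obtain ⟨c, hc, hα⟩ := h
    have h1 := H α c hc hα
    have h2 : Tendsto (fun X : ℝ => c₁ * (Real.log X) ^ (3 / 2 : ℝ)) atTop atTop :=
      ((tendsto_rpow_atTop (by norm_num)).comp Real.tendsto_log_atTop).const_mul_atTop hc₁
    obtain ⟨X, ⟨N, hNX, a, b, ha0, ha1, hb0, hb1, hbig⟩, hXM⟩ :=
      (h1.and (h2.eventually_gt_atTop (M : ℝ))).exists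
    have h3 : (M : ℝ) < N := lt_of_lt_of_le hXM (hbig.trans (disc_le α a b N ha0 ha1 hb0 hb1))
    have h4 : M < N := by exact_mod_cast h3
    refine ⟨N, h4, a, b, ha0, ha1, hb0, hb1, le_trans ?_ hbig⟩
    have hN1 : (1 : ℝ) ≤ N := by exact_mod_cast (show 1 ≤ N by omega)
    have h5 : (Real.log N) ^ (3 / 2 : ℝ) ≤ (Real.log X) ^ (3 / 2 : ℝ) :=
      Real.rpow_le_rpow (Real.log_nonneg hN1) (Real.log_le_log (by linarith) hNX) (by norm_num)
    have h6 : 0 ≤ (Real.log N) ^ (3 / 2 : ℝ) := Real.rpow_nonneg (Real.log_nonneg hN1) _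
    calc min c₁ (1 / 36) * (Real.log N) ^ (3 / 2 : ℝ) ≤ c₁ * (Real.log N) ^ (3 / 2 : ℝ) :=
          mul_le_mul_of_nonneg_right (min_le_left _ _) h6
      _ ≤ c₁ * (Real.log X) ^ (3 / 2 : ℝ) := mul_le_mul_of_nonneg_left h5 hc₁.le
  · obtain ⟨N, hN, b, hb0, hb1, hbig⟩ := case2 α h M
    refine ⟨N, hN, 1, b, by norm_num, le_rfl, hb0, hb1, le_trans ?_ hbig⟩
    have h1 := log_pow_le N (by omega)
    have hN1 : (1 : ℝ) ≤ N := by exact_mod_cast (show 1 ≤ N by omega)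
    have h6 : 0 ≤ (Real.log N) ^ (3 / 2 : ℝ) := Real.rpow_nonneg (Real.log_nonneg hN1) _
    have h7 : min c₁ (1 / 36) * (Real.log N) ^ (3 / 2 : ℝ) ≤ 1 / 36 * (Real.log N) ^ (3 / 2 : ℝ) :=
      mul_le_mul_of_nonneg_right (min_le_right _ _) h6
    linarith

theorem ftype_sqrt_two : FType (Real.sqrt 2) (1 / 4) 1 := by
  intro q hq p
  rw [pow_one]
  have hq1 : (1 : ℝ) ≤ q := by exact_mod_cast hq
  have hs0 : 0 ≤ Real.sqrt 2 := Real.sqrt_nonneg 2
  have hs2 : Real.sqrt 2 * Real.sqrt 2 = 2 := Real.mul_self_sqrt (by norm_num)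
  have hs15 : Real.sqrt 2 ≤ 3 / 2 := by
    rw [Real.sqrt_le_left (by norm_num)]; norm_num
  have hirr := irrational_sqrt_two
  have hne : (2 * (q : ℤ) ^ 2 - p ^ 2) ≠ 0 := by
    intro h0
    have h1 : (2 : ℝ) * (q : ℝ) ^ 2 - (p : ℝ) ^ 2 = 0 := by exact_mod_cast h0
    have h2 : ((q : ℝ) * Real.sqrt 2 - p) * ((q : ℝ) * Real.sqrt 2 + p) = 0 := by
      linear_combination h1 + (q : ℝ) ^ 2 * hs2
    rcases mul_eq_zero.1 h2 with h3 | h3
    · apply hirr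
      refine ⟨(p : ℚ) / q, ?_⟩
      push_cast
      rw [div_eq_iff (by positivity)]
      linarith
    · apply hirr
      refine ⟨-(p : ℚ) / q, ?_⟩
      push_cast
      rw [div_eq_iff (by positivity)]
      linarith
  have hint : (1 : ℝ) ≤ |(2 : ℝ) * (q : ℝ) ^ 2 - (p : ℝ) ^ 2| := by
    have := Int.one_le_abs hne
    exact_mod_cast this
  have hfac : |(2 : ℝ) * (q : ℝ) ^ 2 - (p : ℝ) ^ 2|
      = |(q : ℝ) * Real.sqrt 2 - p| * |(q : ℝ) * Real.sqrt 2 + p| := by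
    rw [← abs_mul]
    congr 1
    linear_combination -(q : ℝ) ^ 2 * hs2
  rw [hfac] at hint
  by_cases hbig : 1 ≤ |(q : ℝ) * Real.sqrt 2 - p|
  · refine le_trans ?_ hbig
    rw [div_le_one (by positivity)]
    linarith
  · push Not at hbig
    have h5 : |(q : ℝ) * Real.sqrt 2 + p| ≤ 4 * q := by
      obtain ⟨h6, h7⟩ := abs_lt.1 hbig
      rw [abs_le]
      constructor <;> nlinarith
    rw [div_le_iff₀ (by positivity)]
    have h8 : 0 ≤ |(q : ℝ) * Real.sqrt 2 - p| := abs_nonneg _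
    nlinarith

end Pool.Agent.Lib.MP_a3f376_nt
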