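import Pool.Agent.Lib.MP_a3f376_nt.Boxes

/-! Halasz argument: lower bound for the grid mean of the discrepancy function. -/

namespace Pool.Agent.Lib.MP_a3f376_nt

open Finset

theorem Ioo_succ_insert {f g : ℕ} (h : f < g) : Ioo f (g + 1) = insert g (Ioo f g) := by
  ext x; simp only [mem_Ioo, mem_insert]; omega

theorem prod_expand1 (z : ℕ → ℂ) (n : ℕ) :
    ∏ f ∈ range n, (1 + z f) = 1 + ∑ f ∈ range n, z f * ∏ h ∈ Ioo f n, (1 + z h) := by
  induction n with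
  | zero => simp
  | succ n ih =>
    rw [Finset.prod_range_succ, ih, Finset.sum_range_succ]
    have : ∀ f ∈ range n, z f * ∏ h ∈ Ioo f (n + 1), (1 + z h)
        = (z f * ∏ h ∈ Ioo f n, (1 + z h)) * (1 + z n) := by
      intro f hf
      rw [Ioo_succ_insert (Finset.mem_range.1 hf), Finset.prod_insert (by simp)]
      ring
    rw [Finset.sum_congr rfl this, ← Finset.sum_mul]
    have h2 : Ioo n (n + 1) = ∅ := by ext x; simp only [mem_Ioo]; simp
    rw [h2, Finset.prod_empty]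
    ring

theorem prod_expand (z : ℕ → ℂ) (n : ℕ) :
    ∏ f ∈ range n, (1 + z f) = 1 + ∑ f ∈ range n, z f
      + ∑ g ∈ range n, ∑ f ∈ range g, z f * z g * ∏ h ∈ Ioo f g, (1 + z h) := by
  induction n with
  | zero => simp
  | succ n ih =>
    rw [Finset.prod_range_succ, mul_add, mul_one, Finset.sum_range_succ, Finset.sum_range_succ]
    nth_rewrite 2 [prod_expand1]
    rw [ih]
    have : ∑ f ∈ range n, z f * z n * ∏ h ∈ Ioo f n, (1 + z h)
        = (∑ f ∈ range n, z f * ∏ h ∈ Ioo f n, (1 + z h)) * z n := by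
      rw [Finset.sum_mul]
      refine Finset.sum_congr rfl fun f _ => ?_
      ring
    rw [this]
    ring

theorem norm_prod_sub_one_le {ι : Type*} (S : Finset ι) (z : ι → ℂ) (η : ℝ)
    (hη : 0 ≤ η) (hz : ∀ i ∈ S, ‖z i‖ ≤ η) :
    ‖∏ i ∈ S, (1 + z i) - 1‖ ≤ (1 + η) ^ S.card - 1 := by
  classical
  induction S using Finset.induction_on with
  | empty => simp
  | insert i S hi ih =>
    rw [Finset.prod_insert hi, Finset.card_insert_of_notMem hi, pow_succ]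
    have h1 := ih fun j hj => hz j (Finset.mem_insert_of_mem hj)
    have h2 := hz i (Finset.mem_insert_self _ _)
    have e : (1 + z i) * ∏ j ∈ S, (1 + z j) - 1
        = (1 + z i) * (∏ j ∈ S, (1 + z j) - 1) + z i := by ring
    rw [e]
    calc ‖(1 + z i) * (∏ j ∈ S, (1 + z j) - 1) + z i‖
        ≤ ‖(1 + z i) * (∏ j ∈ S, (1 + z j) - 1)‖ + ‖z i‖ := norm_add_le _ _
      _ = ‖1 + z i‖ * ‖∏ j ∈ S, (1 + z j) - 1‖ + ‖z i‖ := by rw [norm_mul]
      _ ≤ (1 + η) * ((1 + η) ^ S.card - 1) + η := by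
          have h3 : ‖1 + z i‖ ≤ 1 + η := by
            refine (norm_add_le _ _).trans ?_
            rw [norm_one]; linarith
          have h4 : 0 ≤ ‖∏ j ∈ S, (1 + z j) - 1‖ := norm_nonneg _
          nlinarith
      _ = (1 + η) ^ S.card * (1 + η) - 1 := by ring

theorem pow_sub_one_le (η : ℝ) (h0 : 0 ≤ η) (h1 : η ≤ 1 / 2) (m : ℕ) :
    (1 + η) ^ m - 1 ≤ 2 * η * ((3 / 2) ^ m - 1) := by
  induction m with
  | zero => simp
  | succ m ih =>
    rw [pow_succ, pow_succ]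
    have h2 : 0 ≤ (1 + η) ^ m - 1 := by
      have := one_le_pow₀ (n := m) (show (1 : ℝ) ≤ 1 + η by linarith)
      linarith
    nlinarith

open Classical in
/-- Indicator that the box of scale `(a + 1, b + 1)` around `(t, j)` has no point of `P`. -/
noncomputable def emp {ι : Type*} (P : Finset ι) (u v : ι → ℕ) (a b t j : ℕ) : ℝ :=
  if ∃ p ∈ P, u p / 2 ^ (a + 1) = t / 2 ^ (a + 1) ∧ v p / 2 ^ (b + 1) = j / 2 ^ (b + 1)
  then 0 else 1

section
variable {ι : Type*} (P : Finset ι) (u v : ι → ℕ)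

theorem emp_blk (a b : ℕ) : Blk (a + 1) (b + 1) (emp P u v a b) := by
  intro t t' j j' h1 h2
  unfold emp
  rw [h1, h2]

theorem emp_nonneg (a b t j : ℕ) : 0 ≤ emp P u v a b t j := by
  unfold emp; split_ifs <;> norm_num

theorem emp_le_one (a b t j : ℕ) : emp P u v a b t j ≤ 1 := by
  unfold emp; split_ifs <;> norm_num

theorem emp_eq_zero {a b t j : ℕ} (h : ∃ p ∈ P, u p / 2 ^ (a + 1) = t / 2 ^ (a + 1) ∧
    v p / 2 ^ (b + 1) = j / 2 ^ (b + 1)) : emp P u v a b t j = 0 := by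
  unfold emp; rw [if_pos h]

/-- The `r`-function of a scale. -/
noncomputable def rr (a b t j : ℕ) : ℝ := emp P u v a b t j * chi a t * chi b j

theorem abs_rr_le (a b t j : ℕ) : |rr P u v a b t j| ≤ 1 := by
  unfold rr
  rw [abs_mul, abs_mul, abs_chi, abs_chi, mul_one, mul_one, abs_of_nonneg (emp_nonneg P u v a b t j)]
  exact emp_le_one P u v a b t j

theorem rr_congr {a b t t' j j' : ℕ} (h1 : t / 2 ^ a = t' / 2 ^ a) (h2 : j / 2 ^ b = j' / 2 ^ b) :
    rr P u v a b t j = rr P u v a b t' j' := by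
  unfold rr
  rw [emp_blk P u v a b t t' j j' (div_pow_congr h1 (Nat.le_succ _))
    (div_pow_congr h2 (Nat.le_succ _)), chi_congr h1, chi_congr h2]

/-- number of empty boxes -/
theorem sum_emp_ge (a b X Y : ℕ) :
    (X : ℝ) * Y - P.card ≤
      ∑ x ∈ range X, ∑ y ∈ range Y, emp P u v a b (2 ^ (a + 1) * x) (2 ^ (b + 1) * y) := by
  classical
  have h : ∀ x ∈ range X, ∀ y ∈ range Y,
      1 - (∑ p ∈ P, if u p / 2 ^ (a + 1) = x ∧ v p / 2 ^ (b + 1) = y then (1 : ℝ) else 0)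
        ≤ emp P u v a b (2 ^ (a + 1) * x) (2 ^ (b + 1) * y) := by
    intro x _ y _
    unfold emp
    rw [Nat.mul_div_cancel_left _ (by positivity), Nat.mul_div_cancel_left _ (by positivity)]
    split_ifs with hp
    · obtain ⟨p, hp, hx⟩ := hp
      have : (1 : ℝ) ≤ ∑ p ∈ P, if u p / 2 ^ (a + 1) = x ∧ v p / 2 ^ (b + 1) = y
          then (1 : ℝ) else 0 := by
        have := Finset.single_le_sum (f := fun p => if u p / 2 ^ (a + 1) = x ∧
          v p / 2 ^ (b + 1) = y then (1 : ℝ) else 0) (fun q _ => by positivity) hp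
        simp only [hx] at this
        simpa using this
      linarith
    · have : (0 : ℝ) ≤ ∑ p ∈ P, if u p / 2 ^ (a + 1) = x ∧ v p / 2 ^ (b + 1) = y
          then (1 : ℝ) else 0 := Finset.sum_nonneg fun q _ => by positivity
      linarith
  have h2 := Finset.sum_le_sum fun x hx => Finset.sum_le_sum fun y hy => h x hx y hy
  refine le_trans ?_ h2
  simp only [Finset.sum_sub_distrib, Finset.sum_const, Finset.card_range, nsmul_eq_mul, mul_one]
  have h3 : ∑ x ∈ range X, ∑ y ∈ range Y,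
      (∑ p ∈ P, if u p / 2 ^ (a + 1) = x ∧ v p / 2 ^ (b + 1) = y then (1 : ℝ) else 0)
      ≤ P.card := by
    have e1 : ∑ x ∈ range X, ∑ y ∈ range Y,
      (∑ p ∈ P, if u p / 2 ^ (a + 1) = x ∧ v p / 2 ^ (b + 1) = y then (1 : ℝ) else 0)
      = ∑ p ∈ P, ∑ x ∈ range X, ∑ y ∈ range Y,
        (if u p / 2 ^ (a + 1) = x ∧ v p / 2 ^ (b + 1) = y then (1 : ℝ) else 0) := by
      refine (Finset.sum_congr rfl fun x _ => Finset.sum_comm).trans ?_
      exact Finset.sum_comm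
    rw [e1]
    have e2 : ∀ p ∈ P, ∑ x ∈ range X, ∑ y ∈ range Y,
        (if u p / 2 ^ (a + 1) = x ∧ v p / 2 ^ (b + 1) = y then (1 : ℝ) else 0) ≤ 1 := by
      intro p _
      have : ∀ x ∈ range X, ∑ y ∈ range Y,
          (if u p / 2 ^ (a + 1) = x ∧ v p / 2 ^ (b + 1) = y then (1 : ℝ) else 0)
          ≤ if u p / 2 ^ (a + 1) = x then (1 : ℝ) else 0 := by
        intro x _
        by_cases hx : u p / 2 ^ (a + 1) = x
        · simp only [hx, true_and, if_true]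
          rw [Finset.sum_ite_eq]
          split_ifs <;> norm_num
        · simp [hx]
      refine (Finset.sum_le_sum this).trans ?_
      rw [Finset.sum_ite_eq]
      split_ifs <;> norm_num
    refine (Finset.sum_le_sum e2).trans ?_
    simp
  linarith

theorem box_bound (lam : ℝ) (hlam : 0 ≤ lam) (a b K : ℕ) (ha : a + 1 ≤ K) (hb : b + 1 ≤ K)
    (F : ℕ → ℕ → ℝ) (hF : Blk (a + 1) (b + 1) F)
    (hv : ∀ t j, (∃ p ∈ P, u p / 2 ^ (a + 1) = t / 2 ^ (a + 1) ∧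
      v p / 2 ^ (b + 1) = j / 2 ^ (b + 1)) → F t j = 0) (M : ℝ) (hM : ∀ t j, |F t j| ≤ M) :
    |∑ t ∈ range (2 ^ K), ∑ j ∈ range (2 ^ K),
        disc P u v lam t j * (F t j * chi a t * chi b j)|
      ≤ lam * 2 ^ (a + b) * 2 ^ (2 * K) / 4 * M := by
  obtain ⟨c, hc⟩ := Nat.exists_eq_add_of_le ha
  obtain ⟨d, hd⟩ := Nat.exists_eq_add_of_le hb
  have hK1 : 2 ^ K = 2 ^ (a + 1) * 2 ^ c := by rw [← pow_add, ← hc]
  have hK2 : 2 ^ K = 2 ^ (b + 1) * 2 ^ d := by rw [← pow_add, ← hd]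
  have h1 := box_sum P u v lam a b (2 ^ c) (2 ^ d) F hF hv
  rw [← hK1, ← hK2] at h1
  rw [h1, abs_neg, abs_mul]
  have h2 : |∑ x ∈ range (2 ^ c), ∑ y ∈ range (2 ^ d), F (2 ^ (a + 1) * x) (2 ^ (b + 1) * y)|
      ≤ 2 ^ c * 2 ^ d * M := by
    refine (Finset.abs_sum_le_sum_abs _ _).trans ?_
    have : ∀ x ∈ range (2 ^ c), |∑ y ∈ range (2 ^ d), F (2 ^ (a + 1) * x) (2 ^ (b + 1) * y)|
        ≤ 2 ^ d * M := by
      intro x _
      refine (Finset.abs_sum_le_sum_abs _ _).trans ?_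
      refine (Finset.sum_le_sum fun y _ => hM _ _).trans ?_
      simp
    refine (Finset.sum_le_sum this).trans ?_
    simp only [Finset.sum_const, Finset.card_range, nsmul_eq_mul]
    push_cast
    linarith
  have h3 : |lam * (2 ^ a) ^ 2 * (2 ^ b) ^ 2| = lam * (2 ^ a) ^ 2 * (2 ^ b) ^ 2 :=
    abs_of_nonneg (by positivity)
  rw [h3]
  refine (mul_le_mul_of_nonneg_left h2 (by positivity)).trans (le_of_eq ?_)
  have h4 : (2 : ℝ) ^ (2 * K) = (2 ^ (a + 1) * 2 ^ c) * (2 ^ (b + 1) * 2 ^ d) := by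
    rw [two_mul, pow_add]
    congr 1
    · rw [hc, pow_add]
    · rw [hd, pow_add]
  rw [h4]
  ring

theorem main_term (lam : ℝ) (a b K : ℕ) (ha : a + 1 ≤ K) (hb : b + 1 ≤ K)
    (hl : lam * 2 ^ (a + b) = 1 / 16) (hP : 4 * P.card * 2 ^ (a + b + 2) ≤ 2 ^ (2 * K)) :
    3 / 256 * (2 : ℝ) ^ (2 * K) ≤
      -(∑ t ∈ range (2 ^ K), ∑ j ∈ range (2 ^ K), disc P u v lam t j * rr P u v a b t j) := by
  obtain ⟨c, hc⟩ := Nat.exists_eq_add_of_le ha
  obtain ⟨d, hd⟩ := Nat.exists_eq_add_of_le hb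
  have hK1 : 2 ^ K = 2 ^ (a + 1) * 2 ^ c := by rw [← pow_add, ← hc]
  have hK2 : 2 ^ K = 2 ^ (b + 1) * 2 ^ d := by rw [← pow_add, ← hd]
  have h1 := box_sum P u v lam a b (2 ^ c) (2 ^ d) (emp P u v a b) (emp_blk P u v a b)
    (fun t j h => emp_eq_zero P u v h)
  rw [← hK1, ← hK2] at h1
  unfold rr
  rw [h1, neg_neg]
  have h2 := sum_emp_ge P u v a b (2 ^ c) (2 ^ d)
  push_cast at h2
  have h4 : (2 : ℝ) ^ (2 * K) = (2 ^ (a + 1) * 2 ^ c) * (2 ^ (b + 1) * 2 ^ d) := by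
    rw [two_mul, pow_add]
    congr 1
    · rw [hc, pow_add]
    · rw [hd, pow_add]
  have h5 : 4 * (P.card : ℝ) * 2 ^ (a + b + 2) ≤ 2 ^ (2 * K) := by exact_mod_cast hP
  have h6 : (P.card : ℝ) ≤ 2 ^ c * 2 ^ d / 4 := by
    have : (2 : ℝ) ^ (a + b + 2) > 0 := by positivity
    have h7 : (2 : ℝ) ^ (2 * K) = 2 ^ (a + b + 2) * (2 ^ c * 2 ^ d) := by rw [h4]; ring
    rw [h7] at h5
    nlinarith
  have h8 : 0 ≤ lam := by
    have : (0 : ℝ) < 2 ^ (a + b) := by positivity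
    by_contra hneg
    push Not at hneg
    nlinarith
  have h9 : 3 / 4 * ((2 : ℝ) ^ c * 2 ^ d) ≤
      ∑ x ∈ range (2 ^ c), ∑ y ∈ range (2 ^ d),
        emp P u v a b (2 ^ (a + 1) * x) (2 ^ (b + 1) * y) := by linarith
  refine le_trans (le_of_eq ?_) (mul_le_mul_of_nonneg_left h9
    (show 0 ≤ lam * (2 ^ a) ^ 2 * (2 ^ b) ^ 2 by positivity))
  have h10 : lam * (2 ^ a) ^ 2 * (2 ^ b) ^ 2 = (lam * 2 ^ (a + b)) * (2 ^ a * 2 ^ b) := by
    rw [pow_add]; ring
  rw [h10, hl, h4]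
  ring

/-- The Riesz-type product. -/
noncomputable def zz (η : ℝ) (a0 L f t j : ℕ) : ℂ :=
  ((η * rr P u v (a0 + f) (L - f) t j : ℝ) : ℂ) * Complex.I

theorem norm_zz_le (η : ℝ) (hη : 0 ≤ η) (a0 L f t j : ℕ) : ‖zz P u v η a0 L f t j‖ ≤ η := by
  unfold zz
  rw [norm_mul, Complex.norm_I, mul_one, Complex.norm_real, Real.norm_eq_abs, abs_mul,
    abs_of_nonneg hη]
  have := abs_rr_le P u v (a0 + f) (L - f) t j
  nlinarith

theorem norm_one_add_zz_sq (η : ℝ) (a0 L f t j : ℕ) :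
    ‖1 + zz P u v η a0 L f t j‖ ^ 2 ≤ 1 + η ^ 2 := by
  rw [Complex.sq_norm, Complex.normSq_apply]
  have h1 : (1 + zz P u v η a0 L f t j).re = 1 := by simp [zz]
  have h2 : (1 + zz P u v η a0 L f t j).im = η * rr P u v (a0 + f) (L - f) t j := by simp [zz]
  rw [h1, h2]
  have h3 : rr P u v (a0 + f) (L - f) t j ^ 2 ≤ 1 := by
    have := abs_rr_le P u v (a0 + f) (L - f) t j
    rw [← sq_abs]
    nlinarith [abs_nonneg (rr P u v (a0 + f) (L - f) t j)]
  nlinarith [sq_nonneg η]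

theorem norm_prod_le (s : ℕ) (hs : 1 ≤ s) (a0 L t j : ℕ) :
    ‖∏ f ∈ range (s ^ 2), (1 + zz P u v (1 / s) a0 L f t j)‖ ≤ 2 := by
  have hs' : (0 : ℝ) < s := by exact_mod_cast hs
  have h1 : ‖∏ f ∈ range (s ^ 2), (1 + zz P u v (1 / s) a0 L f t j)‖ ^ 2 ≤ 2 ^ 2 := by
    rw [norm_prod, ← Finset.prod_pow]
    refine (Finset.prod_le_prod (fun f _ => by positivity)
      (fun f _ => norm_one_add_zz_sq P u v (1 / s) a0 L f t j)).trans ?_
    rw [Finset.prod_const, Finset.card_range]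
    have h2 : 1 + (1 / (s : ℝ)) ^ 2 ≤ Real.exp ((1 / (s : ℝ)) ^ 2) := by
      have := Real.add_one_le_exp ((1 / (s : ℝ)) ^ 2)
      linarith
    refine (pow_le_pow_left₀ (by positivity) h2 _).trans ?_
    rw [← Real.exp_nat_mul]
    have h3 : ((s ^ 2 : ℕ) : ℝ) * (1 / (s : ℝ)) ^ 2 = 1 := by
      push_cast
      field_simp
    rw [h3]
    have := Real.exp_one_lt_d9
    linarith
  exact le_of_sq_le_sq h1 (by norm_num)

end

end Pool.Agent.Lib.MP_a3f376_nt
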