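import Pool.Agent.Lib.MP_a3f376_nt.Halasz

/-! Halasz argument: cross terms and the final lower bound. -/

namespace Pool.Agent.Lib.MP_a3f376_nt

open Finset

section
variable {ι : Type*} (P : Finset ι) (u v : ι → ℕ)

/-- The cross factor. -/
noncomputable def cf (η : ℝ) (a0 L f g t j : ℕ) : ℝ :=
  emp P u v (a0 + f) (L - f) t j * emp P u v (a0 + g) (L - g) t j * chi (a0 + g) t
    * chi (L - f) j * (∏ h ∈ Ioo f g, (1 + zz P u v η a0 L h t j)).im

theorem cf_blk (η : ℝ) (a0 L f g : ℕ) (hfg : f < g) (hg : g ≤ L) :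
    Blk (a0 + f + 1) (L - g + 1) (cf P u v η a0 L f g) := by
  intro t t' j j' h1 h2
  unfold cf
  have e1 : emp P u v (a0 + f) (L - f) t j = emp P u v (a0 + f) (L - f) t' j' :=
    emp_blk P u v (a0 + f) (L - f) t t' j j' h1 (div_pow_congr h2 (by omega))
  have e2 : emp P u v (a0 + g) (L - g) t j = emp P u v (a0 + g) (L - g) t' j' :=
    emp_blk P u v (a0 + g) (L - g) t t' j j' (div_pow_congr h1 (by omega)) h2
  have e3 : chi (a0 + g) t = chi (a0 + g) t' := chi_congr (div_pow_congr h1 (by omega))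
  have e4 : chi (L - f) j = chi (L - f) j' := chi_congr (div_pow_congr h2 (by omega))
  have e5 : ∏ h ∈ Ioo f g, (1 + zz P u v η a0 L h t j)
      = ∏ h ∈ Ioo f g, (1 + zz P u v η a0 L h t' j') := by
    refine Finset.prod_congr rfl fun h hh => ?_
    rw [Finset.mem_Ioo] at hh
    unfold zz
    rw [rr_congr P u v (div_pow_congr h1 (show a0 + f + 1 ≤ a0 + h by omega))
      (div_pow_congr h2 (show L - g + 1 ≤ L - h by omega))]
  rw [e1, e2, e3, e4, e5]

theorem cf_abs (η : ℝ) (hη : 0 ≤ η) (a0 L f g t j : ℕ) :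
    |cf P u v η a0 L f g t j| ≤ (1 + η) ^ (g - f - 1) - 1 := by
  unfold cf
  rw [abs_mul, abs_mul, abs_mul, abs_mul, abs_chi, abs_chi, mul_one, mul_one,
    abs_of_nonneg (emp_nonneg P u v _ _ t j), abs_of_nonneg (emp_nonneg P u v _ _ t j)]
  have h1 : |(∏ h ∈ Ioo f g, (1 + zz P u v η a0 L h t j)).im| ≤ (1 + η) ^ (g - f - 1) - 1 := by
    have h2 : (∏ h ∈ Ioo f g, (1 + zz P u v η a0 L h t j)).im
        = (∏ h ∈ Ioo f g, (1 + zz P u v η a0 L h t j) - 1).im := by simp
    rw [h2]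
    refine (Complex.abs_im_le_norm _).trans ?_
    have := norm_prod_sub_one_le (Ioo f g) (fun h => zz P u v η a0 L h t j) η hη
      (fun h _ => norm_zz_le P u v η hη a0 L h t j)
    rwa [Nat.card_Ioo] at this
  have h3 := emp_nonneg P u v (a0 + f) (L - f) t j
  have h4 := emp_le_one P u v (a0 + f) (L - f) t j
  have h5 := emp_nonneg P u v (a0 + g) (L - g) t j
  have h6 := emp_le_one P u v (a0 + g) (L - g) t j
  have h7 : emp P u v (a0 + f) (L - f) t j * emp P u v (a0 + g) (L - g) t j ≤ 1 := by nlinarith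
  have h8 := abs_nonneg ((∏ h ∈ Ioo f g, (1 + zz P u v η a0 L h t j)).im)
  nlinarith

theorem cross_term (lam : ℝ) (η : ℝ) (hη : 0 ≤ η) (hη2 : η ≤ 1 / 2) (a0 L K f g : ℕ)
    (hfg : f < g) (hg : g ≤ L) (ha : a0 + g ≤ K) (hL : L + 1 ≤ K)
    (hl : lam * 2 ^ (a0 + L) = 1 / 16) :
    |∑ t ∈ range (2 ^ K), ∑ j ∈ range (2 ^ K), disc P u v lam t j *
      (rr P u v (a0 + f) (L - f) t j * rr P u v (a0 + g) (L - g) t j *
        (∏ h ∈ Ioo f g, (1 + zz P u v η a0 L h t j)).im)|
      ≤ (2 : ℝ) ^ (2 * K) / 64 * (η * (3 / 4) ^ (g - f - 1)) := by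
  have hlam : 0 ≤ lam := by
    have : (0 : ℝ) < 2 ^ (a0 + L) := by positivity
    by_contra hneg
    push Not at hneg
    nlinarith
  have h1 := box_bound P u v lam hlam (a0 + f) (L - g) K (by omega) (by omega)
    (cf P u v η a0 L f g) (cf_blk P u v η a0 L f g hfg hg)
    (by
      rintro t j ⟨p, hp, h1, h2⟩
      unfold cf
      rw [emp_eq_zero P u v ⟨p, hp, h1, div_pow_congr h2 (by omega)⟩]
      ring) _ (fun t j => cf_abs P u v η hη a0 L f g t j)
  have e : ∀ t j, cf P u v η a0 L f g t j * chi (a0 + f) t * chi (L - g) j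
      = rr P u v (a0 + f) (L - f) t j * rr P u v (a0 + g) (L - g) t j *
        (∏ h ∈ Ioo f g, (1 + zz P u v η a0 L h t j)).im := by
    intro t j
    unfold cf rr
    ring
  simp only [e] at h1
  refine h1.trans ?_
  obtain ⟨d, rfl⟩ := Nat.exists_eq_add_of_le (Nat.succ_le_of_lt hfg)
  have hd : Nat.succ f + d - f - 1 = d := by omega
  rw [hd]
  have h2 : lam * 2 ^ (a0 + f + (L - (Nat.succ f + d))) * 2 ^ (d + 1) = 1 / 16 := by
    rw [← hl, mul_assoc, ← pow_add]
    congr 2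
    omega
  have h3 := pow_sub_one_le η hη hη2 d
  have h4 : lam * 2 ^ (a0 + f + (L - (Nat.succ f + d))) = 1 / 16 / 2 ^ (d + 1) := by
    rw [eq_div_iff (by positivity)]
    exact h2
  rw [h4]
  have h5 : (1 + η) ^ d - 1 ≤ 2 * η * (3 / 2) ^ d := by nlinarith
  have h6 : (1 / 16 / 2 ^ (d + 1) : ℝ) * 2 ^ (2 * K) / 4 * (2 * η * (3 / 2) ^ d)
      = (2 : ℝ) ^ (2 * K) / 64 * (η * (3 / 4) ^ d) := by
    have h7 : ((3 : ℝ) / 4) ^ d = (3 / 2) ^ d / 2 ^ d := by rw [← div_pow]; norm_num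
    rw [h7, pow_succ]
    field_simp
    ring
  rw [← h6]
  exact mul_le_mul_of_nonneg_left h5 (by positivity)

theorem geom_bound (g : ℕ) : ∑ f ∈ range g, ((3 : ℝ) / 4) ^ (g - f - 1) ≤ 4 := by
  have h1 : ∑ f ∈ range g, ((3 : ℝ) / 4) ^ (g - f - 1) = ∑ f ∈ range g, ((3 : ℝ) / 4) ^ f := by
    rw [← Finset.sum_range_reflect]
    refine Finset.sum_congr rfl fun f hf => ?_
    have := Finset.mem_range.1 hf
    congr 1
    omega
  rw [h1, geom_sum_eq (by norm_num)]
  have : (0 : ℝ) ≤ (3 / 4) ^ g := by positivity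
  rw [div_le_iff_of_neg (by norm_num)]
  linarith

theorem halasz (lam : ℝ) (s K a0 L : ℕ) (hs : 3 ≤ s) (h1 : s ^ 2 ≤ L + 1)
    (h2 : a0 + s ^ 2 ≤ K) (h3 : L + 1 ≤ K) (hl : lam * 2 ^ (a0 + L) = 1 / 16)
    (hP : 4 * P.card * 2 ^ (a0 + L + 2) ≤ 2 ^ (2 * K)) :
    (s : ℝ) * 2 ^ (2 * K) / 512 ≤
      ∑ t ∈ range (2 ^ K), ∑ j ∈ range (2 ^ K), |disc P u v lam t j| := by
  have hs3 : (3 : ℝ) ≤ s := by exact_mod_cast hs
  set η : ℝ := 1 / s with hη
  have hη0 : 0 < η := by positivity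
  have hη1 : η ≤ 1 / 3 := by
    rw [hη]; exact one_div_le_one_div_of_le (by norm_num) hs3
  set T : ℝ := (2 : ℝ) ^ (2 * K) with hT
  have hT0 : 0 < T := by positivity
  set n := s ^ 2 with hn
  -- expansion of the imaginary part
  have hexp : ∀ t j, (∏ f ∈ range n, (1 + zz P u v η a0 L f t j)).im
      = η * ∑ f ∈ range n, rr P u v (a0 + f) (L - f) t j
        - η ^ 2 * ∑ g ∈ range n, ∑ f ∈ range g, rr P u v (a0 + f) (L - f) t j *
          rr P u v (a0 + g) (L - g) t j *
          (∏ h ∈ Ioo f g, (1 + zz P u v η a0 L h t j)).im := by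
    intro t j
    rw [prod_expand, Complex.add_im, Complex.add_im, Complex.im_sum, Complex.im_sum,
      Complex.one_im, zero_add, Finset.mul_sum, Finset.mul_sum, sub_eq_add_neg,
      ← Finset.sum_neg_distrib]
    congr 1
    · refine Finset.sum_congr rfl fun f _ => ?_
      simp [zz]
    · refine Finset.sum_congr rfl fun g _ => ?_
      rw [Complex.im_sum, Finset.mul_sum, ← Finset.sum_neg_distrib]
      refine Finset.sum_congr rfl fun f _ => ?_
      have : zz P u v η a0 L f t j * zz P u v η a0 L g t j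
          = ((-(η ^ 2 * (rr P u v (a0 + f) (L - f) t j * rr P u v (a0 + g) (L - g) t j)) : ℝ) : ℂ) := by
        unfold zz
        push_cast
        have := Complex.I_mul_I
        linear_combination ((η : ℂ) * (rr P u v (a0 + f) (L - f) t j : ℂ) * ((η : ℂ) *
          (rr P u v (a0 + g) (L - g) t j : ℂ))) * this
      rw [this, Complex.im_ofReal_mul]
      ring
  -- the pairing
  have hpair : -(∑ t ∈ range (2 ^ K), ∑ j ∈ range (2 ^ K), disc P u v lam t j *
        (∏ f ∈ range n, (1 + zz P u v η a0 L f t j)).im)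
      = η * ∑ f ∈ range n, -(∑ t ∈ range (2 ^ K), ∑ j ∈ range (2 ^ K),
          disc P u v lam t j * rr P u v (a0 + f) (L - f) t j)
        + η ^ 2 * ∑ g ∈ range n, ∑ f ∈ range g, ∑ t ∈ range (2 ^ K), ∑ j ∈ range (2 ^ K),
          disc P u v lam t j * (rr P u v (a0 + f) (L - f) t j * rr P u v (a0 + g) (L - g) t j *
          (∏ h ∈ Ioo f g, (1 + zz P u v η a0 L h t j)).im) := by
    have e1 : ∀ t j, disc P u v lam t j * (∏ f ∈ range n, (1 + zz P u v η a0 L f t j)).im
        = (∑ f ∈ range n, η * (disc P u v lam t j * rr P u v (a0 + f) (L - f) t j))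
          + ∑ g ∈ range n, ∑ f ∈ range g, -(η ^ 2) * (disc P u v lam t j *
            (rr P u v (a0 + f) (L - f) t j * rr P u v (a0 + g) (L - g) t j *
          (∏ h ∈ Ioo f g, (1 + zz P u v η a0 L h t j)).im)) := by
      intro t j
      rw [hexp, mul_sub, ← Finset.mul_sum, ← Finset.mul_sum, sub_eq_add_neg]
      congr 1
      · ring
      · simp only [← Finset.mul_sum]
        ring
    simp only [e1, Finset.sum_add_distrib]
    have c1 : ∑ t ∈ range (2 ^ K), ∑ j ∈ range (2 ^ K), ∑ f ∈ range n,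
        η * (disc P u v lam t j * rr P u v (a0 + f) (L - f) t j)
        = ∑ f ∈ range n, ∑ t ∈ range (2 ^ K), ∑ j ∈ range (2 ^ K),
        η * (disc P u v lam t j * rr P u v (a0 + f) (L - f) t j) := by
      refine (Finset.sum_congr rfl fun x _ => Finset.sum_comm).trans ?_
      exact Finset.sum_comm
    have c2 : ∑ t ∈ range (2 ^ K), ∑ j ∈ range (2 ^ K), ∑ g ∈ range n, ∑ f ∈ range g,
        -(η ^ 2) * (disc P u v lam t j *
            (rr P u v (a0 + f) (L - f) t j * rr P u v (a0 + g) (L - g) t j *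
          (∏ h ∈ Ioo f g, (1 + zz P u v η a0 L h t j)).im))
        = ∑ g ∈ range n, ∑ f ∈ range g, ∑ t ∈ range (2 ^ K), ∑ j ∈ range (2 ^ K),
        -(η ^ 2) * (disc P u v lam t j *
            (rr P u v (a0 + f) (L - f) t j * rr P u v (a0 + g) (L - g) t j *
          (∏ h ∈ Ioo f g, (1 + zz P u v η a0 L h t j)).im)) := by
      refine (Finset.sum_congr rfl fun x _ => Finset.sum_comm).trans ?_
      refine Finset.sum_comm.trans ?_
      refine Finset.sum_congr rfl fun g _ => ?_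
      refine (Finset.sum_congr rfl fun x _ => Finset.sum_comm).trans ?_
      exact Finset.sum_comm
    rw [c1, c2]
    simp only [← Finset.mul_sum, Finset.sum_neg_distrib]
    ring
  -- lower bound of the pairing
  have hmain : ∀ f ∈ range n, 3 / 256 * T ≤ -(∑ t ∈ range (2 ^ K), ∑ j ∈ range (2 ^ K),
      disc P u v lam t j * rr P u v (a0 + f) (L - f) t j) := by
    intro f hf
    have hf' := Finset.mem_range.1 hf
    have hab : a0 + f + (L - f) = a0 + L := by omega
    exact main_term P u v lam (a0 + f) (L - f) K (by omega) (by omega) (by rw [hab]; exact hl)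
      (by rw [hab]; exact hP)
  have hcross : ∀ g ∈ range n, -(T / 64 * (4 * η)) ≤ ∑ f ∈ range g, ∑ t ∈ range (2 ^ K),
      ∑ j ∈ range (2 ^ K), disc P u v lam t j * (rr P u v (a0 + f) (L - f) t j *
        rr P u v (a0 + g) (L - g) t j *
          (∏ h ∈ Ioo f g, (1 + zz P u v η a0 L h t j)).im) := by
    intro g hg
    have hg' := Finset.mem_range.1 hg
    have h5 : ∀ f ∈ range g, -(T / 64 * (η * (3 / 4) ^ (g - f - 1))) ≤ ∑ t ∈ range (2 ^ K),
      ∑ j ∈ range (2 ^ K), disc P u v lam t j * (rr P u v (a0 + f) (L - f) t j *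
        rr P u v (a0 + g) (L - g) t j *
          (∏ h ∈ Ioo f g, (1 + zz P u v η a0 L h t j)).im) := by
      intro f hf
      have hf' := Finset.mem_range.1 hf
      exact (abs_le.1 (cross_term P u v lam η hη0.le (by linarith) a0 L K f g hf' (by omega)
        (by omega) h3 hl)).1
    refine le_trans ?_ (Finset.sum_le_sum h5)
    rw [Finset.sum_neg_distrib, ← Finset.mul_sum, ← Finset.mul_sum]
    have := geom_bound g
    have h6 : η * ∑ f ∈ range g, ((3 : ℝ) / 4) ^ (g - f - 1) ≤ 4 * η := by nlinarith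
    have h7 : T / 64 * (η * ∑ f ∈ range g, ((3 : ℝ) / 4) ^ (g - f - 1)) ≤ T / 64 * (4 * η) :=
      mul_le_mul_of_nonneg_left h6 (by positivity)
    linarith
  have hlow : η * (n * (3 / 256 * T)) + η ^ 2 * (n * (-(T / 64 * (4 * η))))
      ≤ -(∑ t ∈ range (2 ^ K), ∑ j ∈ range (2 ^ K), disc P u v lam t j *
        (∏ f ∈ range n, (1 + zz P u v η a0 L f t j)).im) := by
    rw [hpair]
    have h5 := Finset.sum_le_sum hmain
    have h6 := Finset.sum_le_sum hcross
    rw [Finset.sum_const, Finset.card_range, nsmul_eq_mul] at h5 h6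
    exact add_le_add (mul_le_mul_of_nonneg_left h5 hη0.le)
      (mul_le_mul_of_nonneg_left h6 (by positivity))
  -- upper bound of the pairing
  have hup : -(∑ t ∈ range (2 ^ K), ∑ j ∈ range (2 ^ K), disc P u v lam t j *
        (∏ f ∈ range n, (1 + zz P u v η a0 L f t j)).im)
      ≤ 2 * ∑ t ∈ range (2 ^ K), ∑ j ∈ range (2 ^ K), |disc P u v lam t j| := by
    refine (neg_le_abs _).trans ?_
    refine (Finset.abs_sum_le_sum_abs _ _).trans ?_
    rw [Finset.mul_sum]
    refine Finset.sum_le_sum fun t _ => ?_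
    refine (Finset.abs_sum_le_sum_abs _ _).trans ?_
    rw [Finset.mul_sum]
    refine Finset.sum_le_sum fun j _ => ?_
    rw [abs_mul]
    have h5 : |(∏ f ∈ range n, (1 + zz P u v η a0 L f t j)).im| ≤ 2 :=
      (Complex.abs_im_le_norm _).trans (norm_prod_le P u v s (by omega) a0 L t j)
    have h6 := abs_nonneg (disc P u v lam t j)
    nlinarith
  have hfin := hlow.trans hup
  have hns : (n : ℝ) = (s : ℝ) ^ 2 := by rw [hn]; push_cast; ring
  have hηs : η * s = 1 := by rw [hη]; field_simp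
  have e1 : η * (n * (3 / 256 * T)) = 3 / 256 * T * s := by
    rw [hns]
    have : η * ((s : ℝ) ^ 2 * (3 / 256 * T)) = (η * s) * (3 / 256 * T * s) := by ring
    rw [this, hηs, one_mul]
  have e2 : η ^ 2 * (n * (-(T / 64 * (4 * η)))) = -(T / 16 * η) := by
    rw [hns]
    have : η ^ 2 * ((s : ℝ) ^ 2 * (-(T / 64 * (4 * η)))) = -((η * s) ^ 2 * (T / 16 * η)) := by ring
    rw [this, hηs]
    ring
  rw [e1, e2] at hfin
  have h8 : T / 16 * η ≤ 1 / 128 * T * s := by
    have : η ≤ s / 8 := by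
      have : (s : ℝ) / 8 ≥ 3 / 8 := by linarith
      linarith
    nlinarith
  have h9 : (s : ℝ) * T / 512 = (3 / 256 * T * s - 1 / 128 * T * s) / 2 := by ring
  rw [h9]
  linarith

end

end Pool.Agent.Lib.MP_a3f376_nt
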