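import Pool.Agent.Lib.MP_a3f376_nt.Halasz2

/-! Van der Corput digits and the reduction of box counts to dyadic classes. -/

namespace Pool.Agent.Lib.MP_a3f376_nt

open Finset

/-- The base two radical inverse, written as in the frozen statement. -/
noncomputable def vdc (n : ℕ) : ℝ :=
  ∑ i ∈ Finset.range (n + 1), ((n / 2 ^ i % 2 : ℕ) : ℝ) / (2 : ℝ) ^ (i + 1)

theorem vdc_eq (n M : ℕ) (h : n < 2 ^ M) :
    vdc n = ∑ i ∈ range M, ((n / 2 ^ i % 2 : ℕ) : ℝ) / (2 : ℝ) ^ (i + 1) := by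
  have key : ∀ A B : ℕ, n < 2 ^ A → ∑ i ∈ range (A + B), ((n / 2 ^ i % 2 : ℕ) : ℝ) / (2 : ℝ) ^ (i + 1)
      = ∑ i ∈ range A, ((n / 2 ^ i % 2 : ℕ) : ℝ) / (2 : ℝ) ^ (i + 1) := by
    intro A B hA
    rw [Finset.sum_range_add]
    have : ∑ x ∈ range B, ((n / 2 ^ (A + x) % 2 : ℕ) : ℝ) / (2 : ℝ) ^ (A + x + 1) = 0 := by
      refine Finset.sum_eq_zero fun x _ => ?_
      have : n < 2 ^ (A + x) := lt_of_lt_of_le hA (Nat.pow_le_pow_right (by norm_num) (by omega))
      rw [Nat.div_eq_of_lt this]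
      simp
    rw [this, add_zero]
  have h1 : n < 2 ^ (n + 1) := lt_of_lt_of_le Nat.lt_two_pow_self
    (Nat.pow_le_pow_right (by norm_num) (by omega))
  unfold vdc
  rcases le_total (n + 1) M with h2 | h2
  · obtain ⟨B, rfl⟩ := Nat.exists_eq_add_of_le h2
    exact (key _ _ h1).symm
  · obtain ⟨B, hB⟩ := Nat.exists_eq_add_of_le h2
    rw [hB]
    exact key _ _ h

theorem tail_lt (k r : ℕ) (d : ℕ → ℕ) (hd : ∀ i, d i ≤ 1) :
    ∑ x ∈ range r, ((d (k + 1 + x) : ℕ) : ℝ) / (2 : ℝ) ^ (k + 1 + x + 1) < 1 / 2 ^ (k + 1) := by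
  have h1 : ∀ r : ℕ, ∑ x ∈ range r, ((d (k + 1 + x) : ℕ) : ℝ) / (2 : ℝ) ^ (k + 1 + x + 1)
      ≤ 1 / 2 ^ (k + 1) - 1 / 2 ^ (k + 1 + r) := by
    intro r
    induction r with
    | zero => simp
    | succ r ih =>
      rw [Finset.sum_range_succ]
      have h2 : ((d (k + 1 + r) : ℕ) : ℝ) ≤ 1 := by exact_mod_cast hd _
      have h3 : ((d (k + 1 + r) : ℕ) : ℝ) / (2 : ℝ) ^ (k + 1 + r + 1) ≤ 1 / 2 ^ (k + 1 + r + 1) :=
        div_le_div_of_nonneg_right h2 (by positivity)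
      have h4 : (1 : ℝ) / 2 ^ (k + 1 + r) = 2 * (1 / 2 ^ (k + 1 + (r + 1))) := by
        rw [← add_assoc, pow_succ _ (k + 1 + r)]; field_simp
      have h5 : (1 : ℝ) / 2 ^ (k + 1 + r + 1) = 1 / 2 ^ (k + 1 + (r + 1)) := by rw [add_assoc]
      linarith
  have h6 : (0 : ℝ) < 1 / 2 ^ (k + 1 + r) := by positivity
  linarith [h1 r]

theorem digits_lt (M k : ℕ) (hk : k < M) (d e : ℕ → ℕ) (hd : ∀ i, d i ≤ 1)
    (heq : ∀ i < k, d i = e i) (hdk : d k = 0) (hek : e k = 1) :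
    ∑ i ∈ range M, ((d i : ℕ) : ℝ) / (2 : ℝ) ^ (i + 1)
      < ∑ i ∈ range M, ((e i : ℕ) : ℝ) / (2 : ℝ) ^ (i + 1) := by
  obtain ⟨r, rfl⟩ := Nat.exists_eq_add_of_le (Nat.succ_le_of_lt hk)
  rw [Finset.sum_range_add, Finset.sum_range_add, Nat.succ_eq_add_one, Finset.sum_range_succ,
    Finset.sum_range_succ, hdk, hek]
  have h1 : ∑ i ∈ range k, ((d i : ℕ) : ℝ) / (2 : ℝ) ^ (i + 1)
      = ∑ i ∈ range k, ((e i : ℕ) : ℝ) / (2 : ℝ) ^ (i + 1) :=
    Finset.sum_congr rfl fun i hi => by rw [heq i (Finset.mem_range.1 hi)]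
  have h2 := tail_lt k r d hd
  have h3 : 0 ≤ ∑ x ∈ range r, ((e (k + 1 + x) : ℕ) : ℝ) / (2 : ℝ) ^ (k + 1 + x + 1) :=
    Finset.sum_nonneg fun _ _ => by positivity
  rw [h1]
  push_cast
  simp only [zero_div, add_zero]
  linarith

/-- Construction of an integer with prescribed binary digits. -/
theorem exists_digits (n : ℕ) (W : Finset ℕ) (hW : W ⊆ range n) :
    ∃ A < 2 ^ n, ∀ i, A / 2 ^ i % 2 = if i ∈ W then 1 else 0 := by
  classical
  induction n generalizing W with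
  | zero =>
    refine ⟨0, by norm_num, fun i => ?_⟩
    have : W = ∅ := by
      rw [Finset.range_zero] at hW
      exact Finset.subset_empty.1 hW
    simp [this]
  | succ n ih =>
    obtain ⟨A, hA, hd⟩ := ih (W.filter (· < n)) (fun x hx => by
      rw [Finset.mem_filter] at hx; exact Finset.mem_range.2 hx.2)
    have hAi : ∀ i, n ≤ i → A / 2 ^ i = 0 := fun i hi =>
      Nat.div_eq_of_lt (lt_of_lt_of_le hA (Nat.pow_le_pow_right (by norm_num) hi))
    by_cases hn : n ∈ W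
    · refine ⟨A + 2 ^ n, by rw [pow_succ]; omega, fun i => ?_⟩
      rcases lt_trichotomy i n with h | h | h
      · obtain ⟨c, hc⟩ := Nat.exists_eq_add_of_le (Nat.succ_le_of_lt h)
        have e1 : (A + 2 ^ n) / 2 ^ i = A / 2 ^ i + 2 * 2 ^ c := by
          have : 2 ^ n = 2 ^ i * (2 * 2 ^ c) := by
            rw [hc, Nat.succ_eq_add_one, pow_add, pow_succ]; ring
          rw [this, Nat.add_mul_div_left _ _ (by positivity)]
        rw [e1, Nat.add_mul_mod_self_left, hd i]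
        simp [h]
      · subst h
        have e1 : (A + 2 ^ i) / 2 ^ i = 1 := by
          rw [Nat.add_div_right _ (by positivity), hAi i le_rfl]
        rw [e1]
        simp [hn]
      · have e1 : (A + 2 ^ n) / 2 ^ i = 0 := by
          apply Nat.div_eq_of_lt
          calc A + 2 ^ n < 2 ^ n + 2 ^ n := by omega
            _ = 2 ^ (n + 1) := by ring
            _ ≤ 2 ^ i := Nat.pow_le_pow_right (by norm_num) h
        have hi : i ∉ W := fun hi => by
          have := Finset.mem_range.1 (hW hi)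
          omega
        rw [e1]
        simp [hi]
    · refine ⟨A, by rw [pow_succ]; omega, fun i => ?_⟩
      rw [hd i]
      congr 1
      rw [Finset.mem_filter]
      refine propext ⟨fun h => h.1, fun h => ⟨h, ?_⟩⟩
      have h1 := Finset.mem_range.1 (hW h)
      rcases Nat.lt_succ_iff_lt_or_eq.1 h1 with h2 | h2
      · exact h2
      · exact absurd (h2 ▸ h) hn

/-- Digits of `n + m` when `m` has exact dyadic valuation `k`. -/
theorem digit_add (n m k : ℕ) (hm : m % 2 ^ (k + 1) = 2 ^ k) :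
    (∀ i < k, (n + m) / 2 ^ i % 2 = n / 2 ^ i % 2) ∧
      (n + m) / 2 ^ k % 2 = 1 - n / 2 ^ k % 2 := by
  have hm' : m = 2 ^ (k + 1) * (m / 2 ^ (k + 1)) + 2 ^ k := by
    conv_lhs => rw [← Nat.div_add_mod m (2 ^ (k + 1)), hm]
  set q := m / 2 ^ (k + 1)
  constructor
  · intro i hi
    obtain ⟨c, hc⟩ := Nat.exists_eq_add_of_le (Nat.succ_le_of_lt hi)
    have e1 : n + m = n + 2 ^ i * (2 * (2 ^ c * (2 * q + 1))) := by
      rw [hm', pow_succ, hc, Nat.succ_eq_add_one, pow_add, pow_succ]; ring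
    rw [e1, Nat.add_mul_div_left _ _ (by positivity), Nat.add_mul_mod_self_left]
  · have e1 : n + m = n + 2 ^ k * (2 * q + 1) := by
      rw [hm', pow_succ]; ring
    rw [e1, Nat.add_mul_div_left _ _ (by positivity)]
    omega

/-- The key digit comparison. -/
theorem vdc_lt_iff (n K h A m k : ℕ) (W : Finset ℕ) (hW : W ⊆ range n) (hnK : n ≤ K)
    (hd : ∀ i, A / 2 ^ i % 2 = if i ∈ W then 1 else 0)
    (hm : m % 2 ^ (k + 1) = 2 ^ k) (hmK : m < 2 ^ K) :
    vdc (A + 2 ^ K * h + m) < (∑ i ∈ W, 1 / (2 : ℝ) ^ (i + 1)) ↔ k ∈ W := by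
  classical
  have hkK : k < K := by
    by_contra hk
    push Not at hk
    have h1 : m < 2 ^ k := lt_of_lt_of_le hmK (Nat.pow_le_pow_right (by norm_num) hk)
    have h2 : m % 2 ^ (k + 1) = m := Nat.mod_eq_of_lt (lt_of_lt_of_le h1
      (Nat.pow_le_pow_right (by norm_num) (by omega)))
    omega
  have hdig : ∀ i < K, (A + 2 ^ K * h) / 2 ^ i % 2 = if i ∈ W then 1 else 0 := by
    intro i hi
    obtain ⟨c, hc⟩ := Nat.exists_eq_add_of_le (Nat.succ_le_of_lt hi)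
    have e1 : A + 2 ^ K * h = A + 2 ^ i * (2 * (2 ^ c * h)) := by
      rw [hc, Nat.succ_eq_add_one, pow_add, pow_succ]; ring
    rw [e1, Nat.add_mul_div_left _ _ (by positivity), Nat.add_mul_mod_self_left, hd]
  obtain ⟨h1, h2⟩ := digit_add (A + 2 ^ K * h) m k hm
  set N := A + 2 ^ K * h + m with hN
  set M := N + 1 + K with hM
  have hNM : N < 2 ^ M := lt_of_lt_of_le Nat.lt_two_pow_self
    (Nat.pow_le_pow_right (by norm_num) (by omega))
  have hkM : k < M := by omega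
  rw [vdc_eq N M hNM]
  have ha : (∑ i ∈ W, 1 / (2 : ℝ) ^ (i + 1))
      = ∑ i ∈ range M, (((if i ∈ W then 1 else 0 : ℕ)) : ℝ) / (2 : ℝ) ^ (i + 1) := by
    have e1 : ∀ i ∈ range M, (((if i ∈ W then 1 else 0 : ℕ)) : ℝ) / (2 : ℝ) ^ (i + 1)
        = if i ∈ W then 1 / (2 : ℝ) ^ (i + 1) else 0 := by
      intro i _
      split_ifs <;> simp
    rw [Finset.sum_congr rfl e1, Finset.sum_ite_mem]
    congr 1
    ext i
    rw [Finset.mem_inter]
    refine ⟨fun hi => ⟨?_, hi⟩, fun hi => hi.2⟩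
    have := Finset.mem_range.1 (hW hi)
    exact Finset.mem_range.2 (by omega)
  rw [ha]
  have hlt2 : ∀ i, N / 2 ^ i % 2 ≤ 1 := fun i => by omega
  have hle1 : ∀ i, (if i ∈ W then 1 else 0 : ℕ) ≤ 1 := fun i => by split_ifs <;> norm_num
  have heq : ∀ i < k, N / 2 ^ i % 2 = if i ∈ W then 1 else 0 := by
    intro i hi
    rw [h1 i hi, hdig i (by omega)]
  constructor
  · intro hlt
    by_contra hkW
    have hNk : N / 2 ^ k % 2 = 1 := by
      rw [h2, hdig k hkK, if_neg hkW]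
    have := digits_lt M k hkM (fun i => if i ∈ W then 1 else 0) (fun i => N / 2 ^ i % 2) hle1
      (fun i hi => (heq i hi).symm) (by simp [hkW]) hNk
    exact absurd hlt (not_lt.2 this.le)
  · intro hkW
    have hNk : N / 2 ^ k % 2 = 0 := by
      rw [h2, hdig k hkK, if_pos hkW]
    exact digits_lt M k hkM (fun i => N / 2 ^ i % 2) (fun i => if i ∈ W then 1 else 0) hlt2
      heq hNk (by simp [hkW])

/-- Exact dyadic valuation: uniqueness. -/
theorem val_unique {m k k' : ℕ} (h : m % 2 ^ (k + 1) = 2 ^ k) (h' : m % 2 ^ (k' + 1) = 2 ^ k') :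
    k = k' := by
  have key : ∀ a b : ℕ, a < b → m % 2 ^ (a + 1) = 2 ^ a → m % 2 ^ (b + 1) = 2 ^ b → False := by
    intro a b hab h1 h2
    obtain ⟨c, hc⟩ := Nat.exists_eq_add_of_le (Nat.succ_le_of_lt hab)
    have h3 : m % 2 ^ (b + 1) % 2 ^ (a + 1) = m % 2 ^ (a + 1) :=
      Nat.mod_mod_of_dvd _ (pow_dvd_pow 2 (by omega))
    rw [h2, h1] at h3
    have h4 : 2 ^ b % 2 ^ (a + 1) = 0 := by
      rw [hc, Nat.succ_eq_add_one, pow_add]
      exact Nat.mul_mod_right _ _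
    have : 0 < 2 ^ a := by positivity
    omega
  rcases lt_trichotomy k k' with h1 | h1 | h1
  · exact (key k k' h1 h h').elim
  · exact h1
  · exact (key k' k h1 h' h).elim

theorem val_exists {m : ℕ} (hm : 0 < m) : ∃ k, m % 2 ^ (k + 1) = 2 ^ k := by
  obtain ⟨k, q, ⟨r, hr⟩, hq⟩ := Nat.exists_eq_two_pow_mul_odd hm.ne'
  refine ⟨k, ?_⟩
  have : m = 2 ^ (k + 1) * r + 2 ^ k := by rw [hq, hr, pow_succ]; ring
  rw [this, Nat.mul_add_mod]
  exact Nat.mod_eq_of_lt (Nat.pow_lt_pow_right (by norm_num) (by omega))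

end Pool.Agent.Lib.MP_a3f376_nt
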